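import Pool.Agent.K4H9.AL.Knot

/-! Alexander colourings of the knots `X k`. -/

set_option autoImplicit false
set_option linter.unusedVariables false

namespace Pool.Agent.K4H9.AL

open Pool.Agent.H891R2.Jones Pool.Agent.K4H9.NJ

section

variable {R : Type} [CommRing R]

def tot (b g : R) (y : Fin 3 → R) : Fin 3 → R :=
  adR (pl 1 h1) (pr 1 h1) (-g) (adR (pl 0 h0) (pr 0 h0) (-b) (adR (pl 1 h1) (pr 1 h1) g
    (adR (pl 0 h0) (pr 0 h0) b y)))

/-- `k (2 - t - t⁻¹)` -/
def bb (t : Rˣ) (k : ℕ) : R := k * (2 - t - (↑t⁻¹ : R))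

/-- `t - t⁻¹` -/
def gg (t : Rˣ) : R := t - (↑t⁻¹ : R)

theorem tw_O6 (t : Rˣ) (k : ℕ) : Tw t base (O6 k) (tot (bb t k) (gg t)) := by
  have a1 := tw_ins t base true 0 k h0 (alt rfl 0 h0)
  have a2 := tw_pushN t (O1 k) true 1 h1 (alt (up1 k) 1 h1) 2
  have a3 := tw_ins t (O2 k) true 1 1 h1 (alt (up2 k) 1 h1)
  have a4 := tw_ins t (O3 k) false 0 k h0 (alt (up3 k) 0 h0)
  have a5 := tw_ins t (O4 k) false 1 1 h1 (alt (up4 k) 1 h1)
  have a6 := tw_pushN t (O5 k) false 1 h1 (alt (up5 k) 1 h1) 2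
  rw [up1] at a2
  rw [up5] at a6
  refine (((((a1.trans a2).trans a3).trans a4).trans a5).trans a6).congr fun y => ?_
  unfold tot
  rw [adR_adR, adR_adR]
  have e1 : base.up (pl 1 h1) = false := rfl
  rw [e1]
  have c1 : (((1 : ℕ) : R) * (sgR true * (2 - (t : R) - (↑t⁻¹ : R))) +
      ((2 : ℕ) : R) * (sgR true * (sT t false - 1))) = gg t := by
    simp only [sgR, sT, gg, if_true, Bool.false_eq_true, if_false]
    push_cast
    ring
  have c2 : (((2 : ℕ) : R) * (sgR false * (sT t false - 1)) +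
      ((1 : ℕ) : R) * (sgR false * (2 - (t : R) - (↑t⁻¹ : R)))) = -gg t := by
    simp only [sgR, sT, gg, if_true, Bool.false_eq_true, if_false]
    push_cast
    ring
  have c3 : ((k : ℕ) : R) * (sgR true * (2 - (t : R) - (↑t⁻¹ : R))) = bb t k := by
    simp only [sgR, bb, if_true]
    ring
  have c4 : ((k : ℕ) : R) * (sgR false * (2 - (t : R) - (↑t⁻¹ : R))) = -bb t k := by
    simp only [sgR, bb, Bool.false_eq_true, if_false]
    ring
  rw [c1, c2, c3, c4]

theorem tot_eq (b g : R) (y : Fin 3 → R) : tot b g y =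
    ![y 0 + b * (y 1 - y 0) - b * (y 1 - y 0 + g * (y 2 - y 1 - b * (y 1 - y 0))),
      y 1 + b * (y 1 - y 0) + g * (y 2 - y 1 - b * (y 1 - y 0)) -
        b * (y 1 - y 0 + g * (y 2 - y 1 - b * (y 1 - y 0))) -
        g * (y 2 - y 1 - b * (y 1 - y 0) + b * (y 1 - y 0 + g * (y 2 - y 1 - b * (y 1 - y 0)))),
      y 2 + g * (y 2 - y 1 - b * (y 1 - y 0)) -
        g * (y 2 - y 1 - b * (y 1 - y 0) + b * (y 1 - y 0 + g * (y 2 - y 1 - b * (y 1 - y 0))))] := by
  funext j
  fin_cases j
  · simp [tot, adR, pl, pr]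
    ring
  · simp [tot, adR, pl, pr]
    ring
  · simp [tot, adR, pl, pr]
    ring

theorem X_back (t : Rˣ) (k : ℕ) (c' : (O6 k).P → R) (hc' : IsAlx t (X k) c') :
    ∃ d : R, (1 - bb t k * gg t + (bb t k * gg t) ^ 2) * d = 0 ∧
      (d = 0 → ∀ x y, c' x = c' y) := by
  obtain ⟨(c : Fin 3 → R), hc, hu, hl, hs⟩ := (tw_O6 t k).back c' ((colT_close t _ _).1 hc').1
  have hcl := ((colT_close t _ _).1 hc').2
  have key : ∀ j : Fin 3, tot (bb t k) (gg t) (fun j => c (base.lower j)) j = c (base.upper j) := by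
    intro j
    rw [← hu j, ← hcl j, hl j]
  rw [tot_eq] at key
  have k0 := key 0
  have k1 := key 1
  simp only [Matrix.cons_val_zero, Matrix.cons_val_one, base, Matrix.cons_val] at k0 k1
  refine ⟨c 1 - c 0, ?_, fun hd => ?_⟩
  · linear_combination k1 - k0
  · have e1 : c 1 = c 0 := sub_eq_zero.1 hd
    have e2 : c 2 = c 0 := by
      rw [← k0, e1]
      ring
    have := hs (c 0) (fun x => by
      fin_cases x
      · rfl
      · exact e1
      · exact e2)
    intro x y
    rw [this x, this y]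

theorem X_ex (t : Rˣ) (k : ℕ) (hD : 1 - bb t k * gg t + (bb t k * gg t) ^ 2 = 0) :
    ∃ c' : (O6 k).P → R, IsAlx t (X k) c' ∧
      ((∀ x y, c' x = c' y) → bb t k ^ 2 * gg t = 0) := by
  set b : Fin 3 → R := ![0, 1, bb t k ^ 2 * gg t] with hb
  have e1 : ExT t base (fun j => b (base.upper j)) (fun j => b (base.lower j)) :=
    ⟨b, ⟨fun _ hx => absurd hx List.not_mem_nil, fun _ hx => absurd hx List.not_mem_nil⟩,
      fun _ => rfl, fun _ => rfl⟩
  obtain ⟨c', hc', hu, hl⟩ := (tw_O6 t k).ex _ _ e1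
  have key : ∀ j : Fin 3, tot (bb t k) (gg t) (fun j => b (base.lower j)) j = b (base.upper j) := by
    rw [tot_eq]
    intro j
    fin_cases j
    · simp [base, hb]
      ring
    · simp [base, hb]
      linear_combination hD
    · simp [base, hb]
      linear_combination hD
  refine ⟨c', (colT_close t _ _).2 ⟨hc', fun j => ?_⟩, fun hφ => ?_⟩
  · rw [hl, hu, key]
  · have h2 := hφ ((O6 k).upper (0 : Fin 3)) ((O6 k).upper (2 : Fin 3))
    rw [hu, hu] at h2
    exact h2

end

/-- Fox colourings are Alexander colourings with the parameter `-1` -/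
theorem isAlx_neg_one {P R : Type} [CommRing R] (D : Diagram P) (c : P → R) :
    IsAlx (-1 : Rˣ) D c ↔ IsCol D c := by
  unfold IsAlx IsCol
  refine and_congr Iff.rfl (forall₂_congr fun x _ => ?_)
  unfold CrT CrOK
  refine and_congr Iff.rfl ?_
  simp only [Units.val_neg, Units.val_one]
  split_ifs
  · constructor <;> intro h <;> linear_combination h
  · constructor <;> intro h <;> linear_combination h

/-- all Fox colourings of `X k` are constant -/
theorem X_fox (k : ℕ) {R : Type} [CommRing R] (c : (O6 k).P → R) (hc : IsCol (X k) c) :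
    ∀ x y, c x = c y := by
  obtain ⟨d, hd, h⟩ := X_back (-1 : Rˣ) k c ((isAlx_neg_one _ _).2 hc)
  refine h ?_
  have hg : gg (-1 : Rˣ) = (0 : R) := by
    unfold gg
    simp
  rw [hg] at hd
  linear_combination hd

/-! ### complex parameters -/

/-- a primitive sixth root of unity -/
noncomputable def zz : ℂ := ⟨1 / 2, Real.sqrt 3 / 2⟩

theorem zz_eq : 1 - zz + zz ^ 2 = 0 := by
  have h3 : Real.sqrt 3 * Real.sqrt 3 = 3 := Real.mul_self_sqrt (by norm_num)
  apply Complex.ext
  · simp [zz, pow_two]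
    nlinarith [h3]
  · simp [zz, pow_two]
    ring

theorem ex_t (k : ℕ) (hk : 0 < k) : ∃ t : ℂˣ, bb t k * gg t = zz := by
  have hz3 : (0 : ℝ) < Real.sqrt 3 := Real.sqrt_pos.2 (by norm_num)
  set p : Polynomial ℂ := Polynomial.C (k : ℂ) * (Polynomial.X - 1) ^ 3 * (Polynomial.X + 1) +
    Polynomial.C zz * Polynomial.X ^ 2 with hp
  have hdeg : p.degree ≠ 0 := by
    intro h
    have h1 := Polynomial.eq_C_of_degree_eq_zero h
    have e0 : p.eval 0 = -(k : ℂ) := by
      rw [hp]; simp; ring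
    have e1 : p.eval 1 = zz := by
      rw [hp]; simp
    rw [h1, Polynomial.eval_C] at e0 e1
    have h2 : zz = -(k : ℂ) := e1.symm.trans e0
    have h3 := congrArg Complex.im h2
    simp [zz] at h3
  obtain ⟨x, hx⟩ := IsAlgClosed.exists_root p hdeg
  have hx' : (k : ℂ) * (x - 1) ^ 3 * (x + 1) + zz * x ^ 2 = 0 := by
    have := hx
    rw [Polynomial.IsRoot.def, hp] at this
    simpa using this
  have hx0 : x ≠ 0 := by
    rintro rfl
    have h4 : (k : ℂ) = 0 := by linear_combination -hx'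
    have h5 : k = 0 := by exact_mod_cast h4
    omega
  refine ⟨Units.mk0 x hx0, ?_⟩
  unfold bb gg
  simp only [Units.val_mk0, Units.val_inv_eq_inv_val]
  field_simp
  linear_combination -hx'

theorem not_tr (k k' : ℕ) (hk : 0 < k) (hk' : 0 < k') (hne : k ≠ k') : ¬ TrT (X k) (X k') := by
  intro h
  obtain ⟨t, ht⟩ := ex_t k hk
  have hk0 : (k : ℂ) ≠ 0 := by exact_mod_cast hk.ne'
  have hz0 : zz ≠ 0 := by
    intro h0
    have := zz_eq
    rw [h0] at this
    norm_num at this
  obtain ⟨c, hc, hs⟩ := X_ex t k (by rw [ht]; exact zz_eq)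
  obtain ⟨c', hc', hs'⟩ := h ℂ t c hc
  obtain ⟨d, hd, hd'⟩ := X_back t k' c' hc'
  have e : bb t k' * gg t = (k' / k : ℝ) * zz := by
    rw [← ht]
    unfold bb
    push_cast
    field_simp
  have hd0 : d = 0 := by
    rw [e] at hd
    rcases mul_eq_zero.1 hd with h5 | h5
    · exfalso
      set r : ℝ := k' / k with hr
      have h6 : ((1 : ℂ) - r) * ((1 + r) - r * zz) = 0 := by
        linear_combination h5 - (r : ℂ) ^ 2 * zz_eq
      rcases mul_eq_zero.1 h6 with h7 | h7
      · have h8 : (r : ℂ) = 1 := by linear_combination -h7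
        have h9 : r = 1 := by exact_mod_cast h8
        rw [hr] at h9
        have hkR : (k : ℝ) ≠ 0 := by exact_mod_cast hk.ne'
        have h10 : (k' : ℝ) = k := by
          field_simp at h9
          exact h9
        exact hne (by exact_mod_cast h10.symm)
      · have h8 := congrArg Complex.im h7
        have hz3 : (0 : ℝ) < Real.sqrt 3 := Real.sqrt_pos.2 (by norm_num)
        have hr0 : 0 < r := by rw [hr]; positivity
        have h9 : r * (Real.sqrt 3 / 2) = 0 := by
          simpa [zz] using h8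
        have h10 : 0 < r * (Real.sqrt 3 / 2) := by positivity
        exact h10.ne' h9
    · exact h5
  have h11 := hs (hs' (hd' hd0))
  have h12 : bb t k * (bb t k * gg t) = 0 := by linear_combination h11
  rw [ht] at h12
  rcases mul_eq_zero.1 h12 with h13 | h13
  · rw [h13, zero_mul] at ht
    exact hz0 ht.symm
  · exact hz0 h13

theorem not_tr_unknot (k : ℕ) (hk : 0 < k) : ¬ TrT (X k) unknot := by
  intro h
  obtain ⟨t, ht⟩ := ex_t k hk
  have hz0 : zz ≠ 0 := by
    intro h0
    have := zz_eq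
    rw [h0] at this
    norm_num at this
  obtain ⟨c, hc, hs⟩ := X_ex t k (by rw [ht]; exact zz_eq)
  obtain ⟨c', hc', hs'⟩ := h ℂ t c hc
  have h11 := hs (hs' fun x y => rfl)
  have h12 : bb t k * (bb t k * gg t) = 0 := by linear_combination h11
  rw [ht] at h12
  rcases mul_eq_zero.1 h12 with h13 | h13
  · rw [h13, zero_mul] at ht
    exact hz0 ht.symm
  · exact hz0 h13

end Pool.Agent.K4H9.AL
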