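import Pool.Agent.K4H9.NJ.Stm

/-! Classical knots. -/

set_option autoImplicit false

namespace Pool.Agent.K4H9.AL

open Pool.Agent.H891R2.Jones Pool.Agent.K4H9.NJ

/-- The diagram lies on a sphere: the surface of the diagram has Euler characteristic at least `2` (for a
diagram of a knot with `c` crossings and `r` regions it has Euler characteristic `r - c`). -/
def OnSphere {P : Type} (D : Diagram P) : Prop := D.crossings.length + 2 ≤ regions D

/-- The knot is classical: the diagram is stably equivalent to a knot diagram on the sphere. -/
def Classical {P : Type} (D : Diagram P) : Prop :=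
  ∃ (Q : Type) (_ : DecidableEq Q) (E : Diagram Q), IsKnot E ∧ OnSphere E ∧ Equivalent D E

end Pool.Agent.K4H9.AL
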