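import Pool.Agent.K4H9.NJ.Fin

/-!
# Alexander colourings
-/

set_option autoImplicit false

namespace Pool.Agent.K4H9.AL

open Pool.Agent.H891R2.Jones Pool.Agent.K4H9.NJ

variable {P Q R : Type} [CommRing R]

/-- The condition of an Alexander colouring at a crossing: if the under-strand has the colour `x` on the
left and the colour `y` on the right of the over-strand, which has the colour `z`, then
`y = t x + (1 - t) z`. -/
def CrT (t : Rˣ) (col : P → R) (x : Crossing P) : Prop :=
  col x.b = col x.d ∧ (if x.overFwd = true then col x.c = t * col x.a + (1 - t) * col x.b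
    else col x.a = t * col x.c + (1 - t) * col x.b)

/-- Alexander colourings with the parameter `t` -/
def IsAlx (t : Rˣ) (D : Diagram P) (col : P → R) : Prop :=
  (∀ x ∈ D.arcs, col x.1 = col x.2) ∧ ∀ x ∈ D.crossings, CrT t col x

/-- every colouring of `D` gives one of `E`, nonconstant if the given one is -/
def TrT (D : Diagram P) (E : Diagram Q) : Prop :=
  ∀ (R : Type) [CommRing R] (t : Rˣ) (col : P → R), IsAlx t D col → ∃ col' : Q → R, IsAlx t E col' ∧
    ((∀ x y, col' x = col' y) → ∀ x y, col x = col y)

/-- PIECE V1 (file `Pool/Agent/K4H9/AL/Inv.lean`, `theorem v1 : StV1`): Alexander colourings are invariant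
under the moves.  The proof is the one of `tr_eqv` in `Pool/Agent/K4H9/NJ/Col.lean` (copy this file and
replace `CrOK` by `CrT t`).  Useful: `A t s o x := if s then t * x + (1 - t) * o else t⁻¹ * x + (1 - t⁻¹) * o`;
`CrT t col (cr s o o' u u') ↔ col o = col o' ∧ col u = A t s (col o) (col u')`, and also
`↔ col o = col o' ∧ col u' = A t (!s) (col o) (col u)`; `A t s o (A t (!s) o x) = x`, `A t s o o = o`,
`A t s o (A t s' p x) = A t s' (A t s o p) (A t s o x)` (affine maps).  In the third move the colour of the
top strand `y` stays, the new colour of the middle piece of the middle strand is `col m0` if `om` and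
`col m2` if not, the new one of the bottom strand is `A t s2 y (col b2)` if `ob` and
`A t (!s2) y (col b0)` if not (the colour before or after passing below the top strand); the conditions
`h1 : s1 = ((om == ob) == s2)` and `h3 : s3 = ((om == ot) == s2)` are needed. -/
def StV1 : Prop := ∀ X Y : VD, Relation.EqvGen Move X Y → TrT X.D Y.D ∧ TrT Y.D X.D

end Pool.Agent.K4H9.AL
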