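import Pool.Agent.K4H9.AL.Knot
import Pool.Agent.K4H9.NJ.Tor

/-! Exponentially many knots. -/

set_option autoImplicit false
set_option linter.unusedVariables false

namespace Pool.Agent.K4H9.AL

open Pool.Agent.H891R2.Jones Pool.Agent.K4H9.NJ

variable {m : ℕ}

section

variable {R : Type} [CommRing R]

/-- existence of colourings, with two colours that differ by one -/
def ExU (O : Outer m) (z y : Fin m → R) : Prop :=
  ∃ c : O.P → R, ColO O c ∧ (∀ j, c (O.upper j) = z j) ∧ (∀ j, c (O.lower j) = y j) ∧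
    ∃ p q, c p = c q + 1

theorem exU_push (O : Outer m) (pos : Bool) (i : ℕ) (h : i + 1 < m) (z y : Fin m → R)
    (hc : ExU O z y) : ExU (O.push pos i) z (adC (pl i h) (pr i h) (sg pos) y) := by
  obtain ⟨c, hc, hz, hy, p, q, hpq⟩ := hc
  rw [push_eq O pos i h]
  have hy' : (fun j => c (O.lower j)) = y := funext hy
  refine ⟨(Sum.elim c (adC (pl i h) (pr i h) (sg pos) (fun j => c (O.lower j))) : O.P ⊕ Fin m → R),
    (colO_pushD O pos i h c _).2 ⟨hc, rfl⟩, hz, fun j => ?_, Sum.inl p, Sum.inl q, hpq⟩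
  rw [← hy']
  rfl

theorem exU_virt (O : Outer m) (i : ℕ) (h : i + 1 < m) (z y : Fin m → R)
    (hc : ExU O z y) : ExU (virt O i) z (swC (pl i h) (pr i h) y) := by
  obtain ⟨c, hc, hz, hy, hpq⟩ := hc
  rw [virt_eq O i h]
  exact ⟨c, hc, hz, fun j => hy _, hpq⟩

theorem exU_pushN (O : Outer m) (pos : Bool) (i : ℕ) (h : i + 1 < m) (z y : Fin m → R)
    (hc : ExU O z y) : ∀ n : ℕ, ExU (pushN O pos i n) z (adC (pl i h) (pr i h) (n * NJ.sg pos) y)
  | 0 => by
    have e : ((0 : ℕ) : ℤ) * NJ.sg pos = 0 := by simp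
    rw [e, adC_zero]
    exact hc
  | n + 1 => by
    have := exU_push _ pos i h z _ (exU_pushN O pos i h z y hc n)
    rw [adC_adC] at this
    have e : NJ.sg pos + (n : ℤ) * NJ.sg pos = ((n + 1 : ℕ) : ℤ) * NJ.sg pos := by push_cast; ring
    rw [e] at this
    exact this

theorem exU_ins (O : Outer m) (i k : ℕ) (h : i + 1 < m) (z y : Fin m → R)
    (hc : ExU O z y) : ExU (ins O true i k) z (adC (pl i h) (pr i h) (4 * k) y) := by
  have h1 := exU_pushN _ true i h z _ (exU_virt O i h z y hc) (2 * k)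
  have h2 := exU_pushN _ false i h z _ (exU_virt _ i h z _ h1) (2 * k)
  have e : adC (pl i h) (pr i h) (((2 * k : ℕ) : ℤ) * NJ.sg false)
      (swC (pl i h) (pr i h) (adC (pl i h) (pr i h) (((2 * k : ℕ) : ℤ) * NJ.sg true)
        (swC (pl i h) (pr i h) y))) = adC (pl i h) (pr i h) (4 * k) y := by
    rw [sw_ad_sw _ _ (pl_ne_pr i h), adC_adC]
    congr 1
    simp only [NJ.sg, if_true, Bool.false_eq_true, if_false]
    push_cast
    ring
  rw [e] at h2
  exact h2

end

/-! ### the diagrams -/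

/-- the number of pairs of crossings of a letter -/
def nb (b : Bool) : ℕ := if b then 2 else 1

/-- the outsides -/
def XO : List Bool → Outer 3
  | [] => base
  | b :: l => ins (pushN (XO l) true 0 (2 * nb b)) true 1 1

/-- the diagrams -/
def XD (l : List Bool) : Diagram (XO l).P := (XO l).close

theorem XO_up : ∀ l, (XO l).up = base.up
  | [] => rfl
  | b :: l => (ins_up _ _ _ _ h1).trans ((pushN_up _ _ _ _ h0).trans (XO_up l))

theorem XD_knot : ∀ l, IsKnot (XD l)
  | [] => base_knot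
  | b :: l => knot_ins _ _ _ _ h1 (knot_pushN _ _ _ _ h0 (XD_knot l))

theorem XO_nz : ∀ l, NZ (XO l)
  | [] => base_nz
  | b :: l => ((XO_nz l).pushN true 0 (nb b) h0 (alt (XO_up l) 0 h0)).ins true 1 1 h1
    (alt ((pushN_up _ _ _ _ h0).trans (XO_up l)) 1 h1)

theorem pushN_add (O : Outer m) (pos : Bool) (i a : ℕ) : ∀ b,
    pushN (pushN O pos i a) pos i b = pushN O pos i (a + b)
  | 0 => rfl
  | b + 1 => by
    show (pushN (pushN O pos i a) pos i b).push pos i = (pushN O pos i (a + b)).push pos i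
    rw [pushN_add O pos i a b]

theorem XO_same : ∀ l, ∃ n, SameJ (XO l) (pushN base true 0 (2 * n))
  | [] => ⟨0, ⟨fun _ _ _ _ _ => rfl, rfl, rfl⟩⟩
  | b :: l => by
    obtain ⟨n, hn⟩ := XO_same l
    refine ⟨n + nb b, (sameJ_ins _ true 1 1 h1).trans ?_⟩
    have := hn.pushN true 0 h0 (2 * nb b)
    rw [pushN_add, ← Nat.mul_add] at this
    exact this

theorem kink_fPoly' (n : ℕ) : (pushN base true 0 (2 * n)).close.fPoly = 1 := by
  have hw : (pushN base true 0 (2 * n)).close.writhe = -(2 * n) := by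
    have h1 := (owr_pushN base true 0 (by norm_num) (2 * n)).1
    rw [close_writhe, h1]
    have h2 : pat base.up 0 = 1 := rfl
    have h3 : pat base.up (0 + 1) = -1 := rfl
    have h4 : owr base = 0 := rfl
    rw [h2, h3, h4]
    push_cast
    simp
  have hne : Nonempty (pushN base true 0 (2 * n)).P := ⟨(pushN base true 0 (2 * n)).lower 0⟩
  refine eq_one_of_ev _ fun N hN => ?_
  have h2 := ev_bracket N hN (pushN base true 0 (2 * n)).close
  rw [Z_close, Zg_pushN (Ar N) base true 0 (by norm_num), Zg_base] at h2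
  have hop : opS (Ar N) 3 N true 0 = opS (Ar N)⁻¹ 3 N false 0 := by
    unfold opS
    simp
  have hA := Ar_ne N hN
  have hd' : (N : ℂ) = -(Ar N)⁻¹ ^ 2 - ((Ar N)⁻¹)⁻¹ ^ 2 := by
    rw [inv_inv, Ar_d N hN]
    ring
  rw [hop] at h2
  have h3 : ∀ a : Fin N, ∑ b : Fin N, ∑ c : Fin N,
      ((opS (Ar N)⁻¹ 3 N false 0 ^ (2 * n)) (fun x y => ind (x = y))) ![a, b, b] ![c, c, a] =
        (-(Ar N)⁻¹ ^ 3) ^ (2 * n) := by
    intro a
    rw [Finset.sum_congr rfl fun b _ => kink_sum (inv_ne_zero hA) hd' (2 * n) ![a, b, b] a,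
      ← Finset.mul_sum, Finset.sum_eq_single a]
    · rw [ind_pos ⟨rfl, rfl⟩, mul_one]
    · intro b _ hb
      exact ind_neg fun h => hb h.2
    · intro h; exact absurd (Finset.mem_univ _) h
  rw [Finset.sum_congr rfl fun a _ => h3 a, Finset.sum_const, Finset.card_univ, Fintype.card_fin,
    nsmul_eq_mul] at h2
  have h4 : (N : ℂ) ≠ 0 := by
    have : N ≠ 0 := by omega
    exact_mod_cast this
  have h5 := mul_left_cancel₀ h4 h2
  unfold Diagram.fPoly
  rw [hw, if_pos ⟨-(n : ℤ), by ring⟩, one_mul, map_mul, h5, ev_T, (even_two_mul n).neg_pow, ← pow_mul]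
  rw [inv_pow, ← zpow_natCast, ← zpow_neg, ← zpow_add₀ hA]
  have : (-3 * -(2 * (n : ℤ)) + -((3 * (2 * n) : ℕ) : ℤ)) = 0 := by push_cast; ring
  rw [this, zpow_zero]

theorem XD_fPoly (l : List Bool) : (XD l).fPoly = 1 := by
  obtain ⟨n, hn⟩ := XO_same l
  have := hn.fPoly (by norm_num)
  unfold XD
  rw [this]
  exact kink_fPoly' n

theorem XO_len : ∀ l, (XO l).crossings.length ≤ 8 * l.length
  | [] => le_refl _
  | b :: l => by
    have ih := XO_len l
    have e : (XO (b :: l)).crossings.length = (XO l).crossings.length + 2 * nb b + 2 * 1 + 2 * 1 := by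
      show (ins (pushN (XO l) true 0 (2 * nb b)) true 1 1).crossings.length = _
      unfold ins
      rw [length_pushN _ _ _ h1, length_virt _ _ h1, length_pushN _ _ _ h1, length_virt _ _ h1,
        length_pushN _ _ _ h0]
    rw [e, List.length_cons]
    have : nb b ≤ 2 := by cases b <;> decide
    omega

end Pool.Agent.K4H9.AL
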