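import Pool.Agent.K4H9.AL.Exp

/-! Exponentially many knots: determinants. -/

set_option autoImplicit false
set_option linter.unusedVariables false

namespace Pool.Agent.K4H9.AL

open Pool.Agent.H891R2.Jones Pool.Agent.K4H9.NJ

/-- the integer vectors -/
def sv : List Bool → Fin 3 → ℤ
  | [] => ![0, 1, 1]
  | b :: l => adC (pl 1 h1) (pr 1 h1) 4 (adC (pl 0 h0) (pr 0 h0) (-(2 * nb b)) (sv l))

/-- the pairs -/
def de : List Bool → ℤ × ℤ
  | [] => (1, 0)
  | b :: l => ((de l).1 + 4 * ((de l).2 + 2 * nb b * (de l).1), (de l).2 + 2 * nb b * (de l).1)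

theorem sv_de : ∀ l, sv l 1 - sv l 0 = (de l).1 ∧ sv l 2 - sv l 1 = (de l).2 ∧
    sv l 0 - sv l 1 + sv l 2 = 0
  | [] => by simp [sv, de]
  | b :: l => by
    obtain ⟨a1, a2, a3⟩ := sv_de l
    refine ⟨?_, ?_, ?_⟩
    · simp [sv, de, adC, pl, pr]
      linear_combination (1 + 8 * (nb b : ℤ)) * a1 + 4 * a2
    · simp [sv, de, adC, pl, pr]
      linear_combination 2 * (nb b : ℤ) * a1 + a2
    · simp [sv, adC, pl, pr]
      linear_combination a3

section

variable {R : Type} [CommRing R]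

theorem adC_lin {m : ℕ} (p q : Fin m) (e : ℤ) (s : Fin m → ℤ) (a d : R) :
    adC p q e (fun j => a + (s j : R) * d) = fun j => a + ((adC p q e s j : ℤ) : R) * d := by
  funext j
  unfold adC
  simp only [Int.cast_id]
  split_ifs
  · push_cast
    ring
  · rfl

/-- the colours below a word -/
def Lw (l : List Bool) (R : Type) [CommRing R] (y : Fin 3 → R) : Fin 3 → R :=
  match l with
  | [] => y
  | b :: l => adC (pl 1 h1) (pr 1 h1) (4 * ((1 : ℕ) : ℤ))
    (adC (pl 0 h0) (pr 0 h0) (((2 * nb b : ℕ) : ℤ) * NJ.sg true) (Lw l R y))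

theorem XO_back : ∀ l, Back base (XO l) (fun R _ y => Lw l R y)
  | [] => fun R _ c' hc' => ⟨c', hc', fun j => rfl, fun j => rfl, fun S _ φ s hs => hs⟩
  | b :: l => ((XO_back l).trans (back_pushN (XO l) true 0 h0 (2 * nb b))).trans
      (back_ins (pushN (XO l) true 0 (2 * nb b)) 1 1 h1)

theorem XO_ex (z y : Fin 3 → R) (hc : ExU base z y) : ∀ l, ExU (XO l) z (Lw l R y)
  | [] => hc
  | b :: l => exU_ins _ 1 1 h1 _ _ (exU_pushN (XO l) true 0 h0 _ _ (XO_ex z y hc l) (2 * nb b))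

theorem Lw_eq (a d : R) : ∀ l, Lw l R (fun j => a + ((sv [] j : ℤ) : R) * d) =
    fun j => a + ((sv l j : ℤ) : R) * d
  | [] => rfl
  | b :: l => by
    have e1 : 4 * (((1 : ℕ) : ℤ)) = 4 := by norm_num
    have e2 : (((2 * nb b : ℕ) : ℤ) * NJ.sg true) = -(2 * nb b) := by
      simp [NJ.sg]
    show adC (pl 1 h1) (pr 1 h1) (4 * ((1 : ℕ) : ℤ))
      (adC (pl 0 h0) (pr 0 h0) (((2 * nb b : ℕ) : ℤ) * NJ.sg true)
        (Lw l R (fun j => a + ((sv [] j : ℤ) : R) * d))) = _
    rw [Lw_eq a d l, e1, e2, adC_lin, adC_lin]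
    rfl

theorem XD_back (l : List Bool) (c' : (XO l).P → R) (hc' : IsCol (XD l) c') :
    ∃ d : R, (((de l).1 : ℤ) : R) * d = 0 ∧
      ∀ (S : Type) [CommRing S] (φ : R →+* S), φ d = 0 → ∀ x y, φ (c' x) = φ (c' y) := by
  obtain ⟨(c : Fin 3 → R), hc, hu, hl, hs⟩ := XO_back l R c' ((col_close _ _).1 hc').1
  have hcl := ((col_close _ _).1 hc').2
  have e0 : (fun j => c (base.lower j)) = fun j => c 0 + ((sv [] j : ℤ) : R) * (c 1 - c 0) := by
    funext j
    fin_cases j <;> simp [base, sv]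
  have key : ∀ j : Fin 3, c 0 + ((sv l j : ℤ) : R) * (c 1 - c 0) = c (base.upper j) := by
    intro j
    rw [← hu j, ← hcl j, hl j, e0]
    exact (congrFun (Lw_eq (c 0) (c 1 - c 0) l) j).symm
  have k0 : c 0 + ((sv l 0 : ℤ) : R) * (c 1 - c 0) = c 2 := key 0
  have k1 : c 0 + ((sv l 1 : ℤ) : R) * (c 1 - c 0) = c 2 := key 1
  obtain ⟨a1, -, -⟩ := sv_de l
  refine ⟨c 1 - c 0, ?_, fun S _ φ hφ => ?_⟩
  · rw [← a1]
    push_cast
    linear_combination k1 - k0
  · have e1 : φ (c 1) = φ (c 0) := by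
      rw [map_sub] at hφ
      linear_combination hφ
    have e2 : φ (c 2) = φ (c 0) := by
      rw [← k0, map_add, map_mul, hφ, mul_zero, add_zero]
    have := hs S φ (φ (c 0)) (fun x => by
      fin_cases x
      · rfl
      · exact e1
      · exact e2)
    intro x y
    rw [this x, this y]

theorem XD_ex (l : List Bool) (hD : (((de l).1 : ℤ) : R) = 0) :
    ∃ c' : (XO l).P → R, IsCol (XD l) c' ∧ ∃ p q, c' p = c' q + 1 := by
  set b : Fin 3 → R := ![0, 1, ((sv l 0 : ℤ) : R)] with hb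
  have e1 : ExU base (fun j => b (base.upper j)) (fun j => b (base.lower j)) :=
    ⟨b, ⟨fun _ hx => absurd hx List.not_mem_nil, fun _ hx => absurd hx List.not_mem_nil⟩,
      fun _ => rfl, fun _ => rfl, (1 : Fin 3), (0 : Fin 3), by simp [hb]⟩
  obtain ⟨c', hc', hu, hl, hpq⟩ := XO_ex _ _ e1 l
  have e0 : (fun j => b (base.lower j)) = fun j => (0 : R) + ((sv [] j : ℤ) : R) * 1 := by
    funext j
    fin_cases j <;> simp [base, sv, hb]
  rw [e0, Lw_eq] at hl
  obtain ⟨a1, a2, a3⟩ := sv_de l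
  have b1 : ((sv l 1 : ℤ) : R) = ((sv l 0 : ℤ) : R) := by
    have := hD
    rw [← a1] at this
    push_cast at this
    linear_combination this
  have b2 : ((sv l 2 : ℤ) : R) = 0 := by
    have h3 : sv l 2 = (de l).1 := by linarith
    rw [h3, hD]
  refine ⟨c', (col_close _ _).2 ⟨hc', fun j => ?_⟩, hpq⟩
  rw [hl, hu]
  fin_cases j
  · simp [base, hb]
  · simp [base, hb, b1]
  · simp [base, hb, b2]

end

theorem de_pos : ∀ l, 0 < (de l).1 ∧ 0 ≤ (de l).2 ∧ 4 * (de l).2 ≤ (de l).1 ∧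
    (l ≠ [] → 1 < (de l).1)
  | [] => by simp [de]
  | b :: l => by
    obtain ⟨a1, a2, a3, a4⟩ := de_pos l
    have hb : (1 : ℤ) ≤ nb b := by cases b <;> decide
    have h5 : 0 < 2 * (nb b : ℤ) * (de l).1 := by positivity
    refine ⟨?_, ?_, ?_, fun _ => ?_⟩ <;> simp only [de] <;> nlinarith

theorem XD_dvd (l l' : List Bool) (h : Tr (XD l) (XD l')) : (de l).1 ∣ (de l').1 := by
  have hp := (de_pos l).1
  obtain ⟨N, hN⟩ : ∃ N : ℕ, (de l).1 = N := ⟨(de l).1.toNat, by omega⟩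
  have hR : (((de l).1 : ℤ) : ZMod N) = 0 := by
    rw [hN]
    simp
  obtain ⟨c, hc, p, q, hpq⟩ := XD_ex l hR
  obtain ⟨c', hc', hs'⟩ := h (ZMod N) c hc
  obtain ⟨d, hd, hs''⟩ := XD_back l' c' hc'
  have h1 : Ideal.Quotient.mk (Ideal.span {d}) (1 : ZMod N) = 0 := by
    have h2 := hs' _ (Ideal.Quotient.mk (Ideal.span {d})) (hs'' _ _ (by
      rw [Ideal.Quotient.eq_zero_iff_mem]
      exact Ideal.mem_span_singleton_self d)) p q
    rw [hpq, map_add] at h2
    linear_combination h2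
  rw [Ideal.Quotient.eq_zero_iff_mem, Ideal.mem_span_singleton] at h1
  obtain ⟨e, he⟩ := h1
  have h3 : (((de l').1 : ℤ) : ZMod N) = 0 := by
    calc (((de l').1 : ℤ) : ZMod N) = ((de l').1 : ZMod N) * (d * e) := by rw [← he, mul_one]
      _ = (((de l').1 : ZMod N) * d) * e := by ring
      _ = 0 := by rw [hd, zero_mul]
  rw [hN]
  exact (ZMod.intCast_zmod_eq_zero_iff_dvd _ _).1 h3

theorem XD_inj (l l' : List Bool) (h : Equivalent (XD l) (XD l')) : (de l).1 = (de l').1 := by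
  obtain ⟨h1, h2⟩ := tr_eqv h
  exact Int.dvd_antisymm (de_pos l).1.le (de_pos l').1.le (XD_dvd l l' h1) (XD_dvd l' l h2)

theorem XD_nontrivial (l : List Bool) (hl : l ≠ []) : ¬ Equivalent (XD l) unknot := by
  intro h
  have h1 := (tr_eqv h).1
  have hp := (de_pos l).2.2.2 hl
  obtain ⟨N, hN⟩ : ∃ N : ℕ, (de l).1 = N := ⟨(de l).1.toNat, by omega⟩
  have hR : (((de l).1 : ℤ) : ZMod N) = 0 := by
    rw [hN]
    simp
  obtain ⟨c, hc, p, q, hpq⟩ := XD_ex l hR
  obtain ⟨c', hc', hs'⟩ := h1 (ZMod N) c hc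
  have h2 := hs' _ (RingHom.id _) (fun x y => rfl) p q
  simp only [RingHom.id_apply] at h2
  have h3 : (1 : ZMod N) = 0 := by
    rw [hpq] at h2
    linear_combination h2
  have : Fact (1 < N) := ⟨by omega⟩
  exact one_ne_zero h3

/-- the pair determines the word -/
theorem de_inj : ∀ l l' : List Bool, l.length = l'.length → de l = de l' → l = l'
  | [], [], _, _ => rfl
  | [], _ :: _, h, _ => by simp at h
  | _ :: _, [], h, _ => by simp at h
  | b :: l, b' :: l', h, he => by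
    obtain ⟨a1, a2, a3, -⟩ := de_pos l
    obtain ⟨c1, c2, c3, -⟩ := de_pos l'
    have e1 := congrArg Prod.fst he
    have e2 := congrArg Prod.snd he
    simp only [de] at e1 e2
    have e3 : (de l).1 = (de l').1 := by linarith
    have e4 : b = b' := by
      cases b <;> cases b'
      · rfl
      · simp [nb] at e2
        rw [e3] at e2
        linarith
      · simp [nb] at e2
        rw [e3] at e2
        linarith
      · rfl
    subst e4
    have e5 : (de l).2 = (de l').2 := by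
      rw [e3] at e2
      linarith
    rw [de_inj l l' (by simpa using h) (Prod.ext e3 e5)]

end Pool.Agent.K4H9.AL
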