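import Pool.Agent.K4H9.AL.Def

/-! For knot diagrams on the sphere the Alexander colourings with the parameters `t` and `t⁻¹` correspond. -/

set_option autoImplicit false
set_option linter.unusedVariables false
set_option linter.unusedSectionVars false

namespace Pool.Agent.K4H9.AL

open Pool.Agent.H891R2.Jones Pool.Agent.K4H9.NJ

variable {P : Type} {F : Type} [Field F]

def hh (c : P → F) (ρ : P × Bool → F) (p : P) : F := c p * (ρ (p, true) - ρ (p, false))

def lam (c : P → F) (x : Crossing P) : F :=
  if x.overFwd = true then c x.b - c x.a else c x.c - c x.b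

def eqn (t : F) (ρ : P × Bool → F) (x : Crossing P) : F :=
  (ρ (x.b, true) - t * ρ (x.b, false)) - (ρ (x.d, true) - t * ρ (x.d, false))

theorem cross_id (t : Fˣ) (x : Crossing P) (c : P → F) (ρ : P × Bool → F) (hc : CrT t c x)
    (h1 : ρ (x.a, !x.underFwd) = ρ (x.b, x.overFwd)) (h2 : ρ (x.b, !x.overFwd) = ρ (x.c, !x.underFwd))
    (h3 : ρ (x.c, x.underFwd) = ρ (x.d, !x.overFwd)) (h4 : ρ (x.d, x.overFwd) = ρ (x.a, x.underFwd)) :
    lam c x * eqn (t : F) ρ x =
      (hh c ρ (if x.underFwd then x.a else x.c) - hh c ρ (if x.underFwd then x.c else x.a)) +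
      (hh c ρ (if x.overFwd then x.b else x.d) - hh c ρ (if x.overFwd then x.d else x.b)) := by
  obtain ⟨h5, h6⟩ := hc
  unfold lam eqn hh
  cases hu : x.underFwd <;> cases ho : x.overFwd <;>
    simp only [hu, ho, Bool.not_true, Bool.not_false, if_true, Bool.false_eq_true, if_false] at * <;>
    rw [h6, ← h5] <;>
    generalize ρ (x.a, true) = a1 at * <;> generalize ρ (x.a, false) = a0 at * <;>
    generalize ρ (x.b, true) = b1 at * <;> generalize ρ (x.b, false) = b0 at * <;>
    generalize ρ (x.c, true) = c1 at * <;> generalize ρ (x.c, false) = c0 at * <;>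
    generalize ρ (x.d, true) = d1 at * <;> generalize ρ (x.d, false) = d0 at * <;>
    subst h1 <;> subst h2 <;> subst h3 <;> subst h4 <;> ring

theorem alx_of_region (t : Fˣ) (x : Crossing P) (ρ : P × Bool → F)
    (h1 : ρ (x.a, !x.underFwd) = ρ (x.b, x.overFwd)) (h2 : ρ (x.b, !x.overFwd) = ρ (x.c, !x.underFwd))
    (h3 : ρ (x.c, x.underFwd) = ρ (x.d, !x.overFwd)) (h4 : ρ (x.d, x.overFwd) = ρ (x.a, x.underFwd))
    (h5 : eqn (t : F) ρ x = 0) :
    CrT t⁻¹ (fun p => ρ (p, true) - t * ρ (p, false)) x := by
  have hti : (t : F) * (↑t⁻¹ : F) - 1 = 0 := by rw [Units.mul_inv, sub_self]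
  unfold eqn at h5
  refine ⟨sub_eq_zero.1 h5, ?_⟩
  dsimp only
  cases hu : x.underFwd <;> cases ho : x.overFwd <;>
    simp only [hu, ho, Bool.not_true, Bool.not_false, if_true, Bool.false_eq_true, if_false] at * <;>
    generalize ρ (x.a, true) = a1 at * <;> generalize ρ (x.a, false) = a0 at * <;>
    generalize ρ (x.b, true) = b1 at * <;> generalize ρ (x.b, false) = b0 at * <;>
    generalize ρ (x.c, true) = c1 at * <;> generalize ρ (x.c, false) = c0 at * <;>
    generalize ρ (x.d, true) = d1 at * <;> generalize ρ (x.d, false) = d0 at * <;>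
    subst h1 <;> subst h2 <;> subst h3 <;> subst h4
  · linear_combination -h5 - (a1 - c0) * hti
  · linear_combination -h5 - (b0 - d1) * hti
  · linear_combination (↑t⁻¹ : F) * h5 - (d0 - b1) * hti
  · linear_combination (↑t⁻¹ : F) * h5 - (c1 - a0) * hti

/-- invariance under `Adj` -/
def Inv (D : Diagram P) (ρ : P × Bool → F) : Prop := ∀ s s', Adj D s s' → ρ s = ρ s'

theorem Inv.corners {D : Diagram P} {ρ : P × Bool → F} (hρ : Inv D ρ) {x : Crossing P}
    (hx : x ∈ D.crossings) : ρ (x.a, !x.underFwd) = ρ (x.b, x.overFwd) ∧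
      ρ (x.b, !x.overFwd) = ρ (x.c, !x.underFwd) ∧ ρ (x.c, x.underFwd) = ρ (x.d, !x.overFwd) ∧
      ρ (x.d, x.overFwd) = ρ (x.a, x.underFwd) :=
  ⟨hρ _ _ (Or.inr ⟨x, hx, Or.inl ⟨rfl, rfl⟩⟩), hρ _ _ (Or.inr ⟨x, hx, Or.inr (Or.inl ⟨rfl, rfl⟩)⟩),
    hρ _ _ (Or.inr ⟨x, hx, Or.inr (Or.inr (Or.inl ⟨rfl, rfl⟩))⟩),
    hρ _ _ (Or.inr ⟨x, hx, Or.inr (Or.inr (Or.inr ⟨rfl, rfl⟩))⟩)⟩

theorem Inv.arcs {D : Diagram P} {ρ : P × Bool → F} (hρ : Inv D ρ) {x : P × P}
    (hx : x ∈ D.arcs) (b : Bool) : ρ (x.1, b) = ρ (x.2, b) :=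
  hρ _ _ (Or.inl ⟨x, hx, b, rfl, rfl⟩)

theorem sum_sub' {α : Type} (l : List α) (f g : α → F) :
    (l.map (fun x => f x - g x)).sum = (l.map f).sum - (l.map g).sum := by
  induction l with
  | nil => simp
  | cons a l ih =>
    simp only [List.map_cons, List.sum_cons, ih]
    ring

theorem sum_zero [DecidableEq P] (D : Diagram P) (hD : D.IsClosed) (t : Fˣ) (c : P → F)
    (hc : IsAlx t D c) (ρ : P × Bool → F) (hρ : Inv D ρ) :
    (D.crossings.map (fun x => lam c x * eqn (t : F) ρ x)).sum = 0 := by
  have hperm : D.starts.Perm D.ends := List.perm_iff_count.2 fun p => by rw [(hD p).1, (hD p).2]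
  have h1 := (hperm.map (hh c ρ)).sum_eq
  unfold Diagram.starts Diagram.ends at h1
  simp only [List.map_append, List.sum_append, List.map_map] at h1
  have h2 : (D.arcs.map (hh c ρ ∘ Prod.fst)).sum = (D.arcs.map (hh c ρ ∘ Prod.snd)).sum := by
    congr 1
    refine List.map_congr_left fun x hx => ?_
    simp only [Function.comp_apply, hh]
    rw [hρ.arcs hx, hρ.arcs hx, hc.1 x hx]
  rw [h2] at h1
  have h3 : (D.crossings.map (fun x => lam c x * eqn (t : F) ρ x)).sum =
      (D.crossings.map (fun x => 
      (hh c ρ (if x.underFwd then x.a else x.c) - hh c ρ (if x.underFwd then x.c else x.a)) +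
      (hh c ρ (if x.overFwd then x.b else x.d) - hh c ρ (if x.overFwd then x.d else x.b)))).sum := by
    congr 1
    refine List.map_congr_left fun x hx => ?_
    obtain ⟨a1, a2, a3, a4⟩ := hρ.corners hx
    exact cross_id t x c ρ (hc.2 x hx) a1 a2 a3 a4
  rw [h3, List.sum_map_add, sum_sub', sum_sub']
  have e1 : (D.crossings.map (fun x => hh c ρ (if x.underFwd then x.a else x.c))).sum =
      (D.crossings.map (hh c ρ ∘ fun x => if x.underFwd = true then x.a else x.c)).sum := rfl
  have e2 : (D.crossings.map (fun x => hh c ρ (if x.underFwd then x.c else x.a))).sum =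
      (D.crossings.map (hh c ρ ∘ fun x => if x.underFwd = true then x.c else x.a)).sum := rfl
  have e3 : (D.crossings.map (fun x => hh c ρ (if x.overFwd then x.b else x.d))).sum =
      (D.crossings.map (hh c ρ ∘ fun x => if x.overFwd = true then x.b else x.d)).sum := rfl
  have e4 : (D.crossings.map (fun x => hh c ρ (if x.overFwd then x.d else x.b))).sum =
      (D.crossings.map (hh c ρ ∘ fun x => if x.overFwd = true then x.d else x.b)).sum := rfl
  rw [e1, e2, e3, e4]
  linear_combination h1

theorem lam_ne [DecidableEq P] (D : Diagram P) (hD : IsKnot D) (t : Fˣ) (c : P → F)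
    (hc : IsAlx t D c) (h0 : ∀ x ∈ D.crossings, lam c x = 0) : ∀ p q, c p = c q := by
  intro p q
  induction hD.2 p q with
  | rel p q h =>
    rcases h with h | ⟨x, hx, h⟩
    · exact hc.1 _ h
    · have h1 := h0 x hx
      obtain ⟨h2, h3⟩ := hc.2 x hx
      unfold lam at h1
      rcases h with ⟨rfl, rfl⟩ | ⟨rfl, rfl⟩
      · split_ifs at h1 h3 with ho
        · linear_combination -h3 - (1 - (t : F)) * h1
        · linear_combination h3 + (t : F) * h1 - h1
      · exact h2
  | refl p => rfl
  | symm p q _ ih => exact ih.symm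
  | trans p q r _ _ ih1 ih2 => exact ih1.trans ih2


/-- For a knot diagram on the sphere: if there is a nonconstant colouring with the parameter `t`, there is
one with the parameter `t⁻¹`. -/
theorem sym [DecidableEq P] (D : Diagram P) (hD : IsKnot D) (hs : D.crossings.length + 2 ≤ regions D)
    (t : Fˣ) (c : P → F) (hc : IsAlx t D c) (hne : ¬ ∀ x y, c x = c y) :
    ∃ c' : P → F, IsAlx t⁻¹ D c' ∧ ¬ ∀ x y, c' x = c' y := by
  classical
  by_contra hcon
  have hconst : ∀ c' : P → F, IsAlx t⁻¹ D c' → ∀ x y, c' x = c' y := by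
    intro c' hc'
    by_contra h
    exact hcon ⟨c', hc', h⟩
  have ht : (t : F) ≠ 0 := t.ne_zero
  -- regions
  have hr0 : Nat.card (Quot (Adj D)) ≠ 0 := by
    unfold regions at hs
    omega
  have hfin : Finite (Quot (Adj D)) := (Nat.card_ne_zero.1 hr0).2
  have hft : Fintype (Quot (Adj D)) := Fintype.ofFinite _
  set n := D.crossings.length with hn
  let ext : (Quot (Adj D) → F) → P × Bool → F := fun v s => v (Quot.mk _ s)
  have hext : ∀ v, Inv D (ext v) := fun v s s' h => congrArg v (Quot.sound h)
  let Φ : (Quot (Adj D) → F) →ₗ[F] (Fin n → F) :=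
    { toFun := fun v i => eqn (t : F) (ext v) D.crossings[i]
      map_add' := by
        intro v w
        funext i
        simp only [eqn, ext, Pi.add_apply]
        ring
      map_smul' := by
        intro a v
        funext i
        simp only [eqn, ext, Pi.smul_apply, smul_eq_mul, RingHom.id_apply]
        ring }
  -- the left kernel
  obtain ⟨x0, hx0, hl0⟩ : ∃ x ∈ D.crossings, lam c x ≠ 0 := by
    by_contra h
    push Not at h
    exact hne (lam_ne D hD t c hc h)
  obtain ⟨i0, hi0⟩ := List.get_of_mem hx0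
  have hsum : ∀ v, ∑ i : Fin n, lam c D.crossings[i] * Φ v i = 0 := by
    intro v
    have h1 := sum_zero D hD.1 t c hc (ext v) (hext v)
    rw [← List.ofFn_getElem_eq_map, List.sum_ofFn] at h1
    exact h1
  have hrange : LinearMap.range Φ ≠ ⊤ := by
    intro htop
    obtain ⟨v, hv⟩ : ∃ v, Φ v = Pi.single i0 1 := by
      have : Pi.single i0 (1 : F) ∈ LinearMap.range Φ := by rw [htop]; trivial
      exact this
    have h1 := hsum v
    rw [hv, Finset.sum_eq_single i0] at h1
    · rw [Pi.single_eq_same, mul_one] at h1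
      refine hl0 ?_
      rw [← hi0]
      exact h1
    · intro j _ hj
      rw [Pi.single_eq_of_ne hj, mul_zero]
    · intro h; exact absurd (Finset.mem_univ _) h
  have hlt := Submodule.finrank_lt hrange
  rw [Module.finrank_fintype_fun_eq_card, Fintype.card_fin] at hlt
  have hrn := LinearMap.finrank_range_add_finrank_ker Φ
  rw [Module.finrank_fintype_fun_eq_card, ← Nat.card_eq_fintype_card] at hrn
  have hker : 3 ≤ Module.finrank F (LinearMap.ker Φ) := by
    unfold regions at hs
    omega
  -- the base point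
  obtain ⟨p0⟩ : Nonempty P := by
    by_contra h
    rw [not_nonempty_iff] at h
    exact hne fun x => (h.false x).elim
  let Θ : LinearMap.ker Φ →ₗ[F] F × F :=
    { toFun := fun v => (ext v.1 (p0, true) - t * ext v.1 (p0, false), ext v.1 (p0, true))
      map_add' := by
        intro v w
        ext
        · simp only [ext, Submodule.coe_add, Pi.add_apply, Prod.mk_add_mk]
          ring
        · rfl
      map_smul' := by
        intro a v
        ext
        · simp only [ext, Submodule.coe_smul, Pi.smul_apply, smul_eq_mul, RingHom.id_apply, Prod.smul_mk]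
          ring
        · rfl }
  have hinj : Function.Injective Θ := by
    rw [← LinearMap.ker_eq_bot, LinearMap.ker_eq_bot']
    intro v hv
    have hv1 : ext v.1 (p0, true) - t * ext v.1 (p0, false) = 0 := congrArg Prod.fst hv
    have hv2 : ext v.1 (p0, true) = 0 := congrArg Prod.snd hv
    have hev : ∀ x ∈ D.crossings, eqn (t : F) (ext v.1) x = 0 := by
      intro x hx
      obtain ⟨i, hi⟩ := List.get_of_mem hx
      have h1 : Φ v.1 = 0 := v.2
      have h2 := congrFun h1 i
      rw [← hi]
      exact h2
    have hcol : IsAlx t⁻¹ D (fun p => ext v.1 (p, true) - t * ext v.1 (p, false)) := by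
      constructor
      · intro x hx
        show ext v.1 (x.1, true) - t * ext v.1 (x.1, false) = ext v.1 (x.2, true) - t * ext v.1 (x.2, false)
        rw [(hext v.1).arcs hx, (hext v.1).arcs hx]
      · intro x hx
        obtain ⟨a1, a2, a3, a4⟩ := (hext v.1).corners hx
        exact alx_of_region t x (ext v.1) a1 a2 a3 a4 (hev x hx)
    have hz : ∀ p, ext v.1 (p, true) = t * ext v.1 (p, false) := by
      intro p
      have h1 : ext v.1 (p, true) - t * ext v.1 (p, false) =
        ext v.1 (p0, true) - t * ext v.1 (p0, false) := hconst _ hcol p p0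
      rw [hv1] at h1
      exact sub_eq_zero.1 h1
    have hz' : ∀ p b b', ext v.1 (p, b) = 0 → ext v.1 (p, b') = 0 := by
      intro p b b' h
      have h1 := hz p
      cases b <;> cases b'
      · exact h
      · rw [h1, h, mul_zero]
      · rw [h] at h1
        rcases mul_eq_zero.1 h1.symm with h2 | h2
        · exact absurd h2 ht
        · exact h2
      · exact h
    have hprop : ∀ p q, Relation.EqvGen (Piece D) p q →
        (ext v.1 (p, true) = 0 ↔ ext v.1 (q, true) = 0) := by
      intro p q h
      induction h with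
      | rel p q h =>
        rcases h with h | ⟨x, hx, h⟩
        · rw [(hext v.1).arcs h]
        · obtain ⟨a1, a2, a3, a4⟩ := (hext v.1).corners hx
          rcases h with ⟨rfl, rfl⟩ | ⟨rfl, rfl⟩
          · constructor
            · intro h
              refine hz' _ _ _ (a2.symm.trans (hz' _ _ _ (a1.symm.trans (hz' _ _ _ h))))
            · intro h
              refine hz' _ _ _ (a1.trans (hz' _ _ _ (a2.trans (hz' _ _ _ h))))
          · constructor
            · intro h
              refine hz' _ _ _ (a4.trans (hz' _ _ _ (a1.trans (hz' _ _ _ h))))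
            · intro h
              refine hz' _ _ _ (a1.symm.trans (hz' _ _ _ (a4.symm.trans (hz' _ _ _ h))))
      | refl p => exact Iff.rfl
      | symm p q _ ih => exact ih.symm
      | trans p q r _ _ ih1 ih2 => exact ih1.trans ih2
    apply Subtype.ext
    funext s
    induction s using Quot.ind with
    | mk s =>
      obtain ⟨p, b⟩ := s
      exact hz' p true b ((hprop p0 p (hD.2 p0 p)).1 hv2)
  have h2 := LinearMap.finrank_le_finrank_of_injective hinj
  rw [Module.finrank_prod, Module.finrank_self] at h2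
  omega

end Pool.Agent.K4H9.AL
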