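import Pool.Agent.K4H9.AL.Fin
import Pool.Agent.K4H9.AL.Sym
import Pool.Agent.K4H9.AL.Cls

/-! The knots are not classical. -/

set_option autoImplicit false
set_option linter.unusedVariables false

namespace Pool.Agent.K4H9.AL

open Pool.Agent.H891R2.Jones Pool.Agent.K4H9.NJ

/-- the colourings of classical knots are symmetric -/
theorem classical_sym {P : Type} {D : Diagram P} (hD : Classical D) {F : Type} [Field F] (t : Fˣ)
    (c : P → F) (hc : IsAlx t D c) (hne : ¬ ∀ x y, c x = c y) :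
    ∃ c' : P → F, IsAlx t⁻¹ D c' ∧ ¬ ∀ x y, c' x = c' y := by
  obtain ⟨Q, _, E, hE, hs, he⟩ := hD
  obtain ⟨h1, h2⟩ := v1 _ _ he
  obtain ⟨c1, hc1, hs1⟩ := h1 F t c hc
  obtain ⟨c2, hc2, hn2⟩ := sym E hE hs t c1 hc1 (fun h => hne (hs1 h))
  obtain ⟨c3, hc3, hs3⟩ := h2 F t⁻¹ c2 hc2
  exact ⟨c3, hc3, fun h => hn2 (hs3 h)⟩

theorem X_nc (k : ℕ) (hk : 0 < k) : ¬ Classical (X k) := by
  intro h
  obtain ⟨t, ht⟩ := ex_t k hk
  have hz0 : zz ≠ 0 := by
    intro h0
    have := zz_eq
    rw [h0] at this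
    norm_num at this
  obtain ⟨c, hc, hs⟩ := X_ex t k (by rw [ht]; exact zz_eq)
  have hne : ¬ ∀ x y, c x = c y := by
    intro h1
    have h11 := hs h1
    have h12 : bb t k * (bb t k * gg t) = 0 := by linear_combination h11
    rw [ht] at h12
    rcases mul_eq_zero.1 h12 with h13 | h13
    · rw [h13, zero_mul] at ht
      exact hz0 ht.symm
    · exact hz0 h13
  obtain ⟨c', hc', hn'⟩ := classical_sym h t c hc hne
  obtain ⟨d, hd, hd'⟩ := X_back t⁻¹ k c' hc'
  have e : bb t⁻¹ k * gg t⁻¹ = -zz := by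
    rw [← ht]
    unfold bb gg
    rw [inv_inv]
    ring
  rw [e] at hd
  refine hn' (hd' ((mul_eq_zero.1 hd).resolve_left fun h5 => ?_))
  have h6 : zz = 0 := by
    linear_combination (1 / 2 : ℂ) * h5 - (1 / 2 : ℂ) * zz_eq
  exact hz0 h6

/-! ### the knots `W k n` -/

section

variable {R : Type} [CommRing R]

def totW (e1 e2 : R) (y : Fin 3 → R) : Fin 3 → R :=
  adR (pl 1 h1) (pr 1 h1) e2 (adR (pl 0 h0) (pr 0 h0) e1 y)

/-- the two coefficients -/
def ee1 (t : Rˣ) (n : ℕ) : R := n * (1 - (↑t⁻¹ : R))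

theorem tw_W (t : Rˣ) (k n : ℕ) :
    Tw t base (ins (pushN base false 0 (2 * n)) true 1 k) (totW (ee1 t n) (bb t k)) := by
  have hup : (pushN base false 0 (2 * n)).up = base.up := pushN_up _ _ _ _ h0
  have a1 := tw_pushN t base false 0 h0 (alt rfl 0 h0) n
  have a2 := tw_ins t (pushN base false 0 (2 * n)) true 1 k h1 (alt hup 1 h1)
  refine (a1.trans a2).congr fun y => ?_
  unfold totW
  have e1 : base.up (pl 0 h0) = true := rfl
  rw [e1]
  have c1 : ((n : ℕ) : R) * (sgR false * (sT t true - 1)) = ee1 t n := by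
    simp only [sgR, sT, ee1, if_true, Bool.false_eq_true, if_false]
    ring
  have c2 : ((k : ℕ) : R) * (sgR true * (2 - (t : R) - (↑t⁻¹ : R))) = bb t k := by
    simp only [sgR, bb, if_true]
    ring
  rw [c1, c2]

theorem totW_eq (e1 e2 : R) (y : Fin 3 → R) : totW e1 e2 y =
    ![y 0 + e1 * (y 1 - y 0),
      y 1 + e1 * (y 1 - y 0) + e2 * (y 2 - y 1 - e1 * (y 1 - y 0)),
      y 2 + e2 * (y 2 - y 1 - e1 * (y 1 - y 0))] := by
  funext j
  fin_cases j
  · simp [totW, adR, pl, pr]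
  · simp [totW, adR, pl, pr]
    ring
  · simp [totW, adR, pl, pr]
    ring

theorem W_backT (t : Rˣ) (k n : ℕ) (c' : (ins (pushN base false 0 (2 * n)) true 1 k).P → R)
    (hc' : IsAlx t (W k n) c') :
    ∃ d : R, (1 - ee1 t n * bb t k) * d = 0 ∧ (d = 0 → ∀ x y, c' x = c' y) := by
  obtain ⟨(c : Fin 3 → R), hc, hu, hl, hs⟩ := (tw_W t k n).back c' ((colT_close t _ _).1 hc').1
  have hcl := ((colT_close t _ _).1 hc').2
  have key : ∀ j : Fin 3, totW (ee1 t n) (bb t k) (fun j => c (base.lower j)) j = c (base.upper j) := by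
    intro j
    rw [← hu j, ← hcl j, hl j]
  rw [totW_eq] at key
  have k0 := key 0
  have k1 := key 1
  simp only [Matrix.cons_val_zero, Matrix.cons_val_one, base, Matrix.cons_val] at k0 k1
  refine ⟨c 1 - c 0, ?_, fun hd => ?_⟩
  · linear_combination k1 - k0
  · have e1 : c 1 = c 0 := sub_eq_zero.1 hd
    have e2 : c 2 = c 0 := by
      rw [← k0, e1]
      ring
    have := hs (c 0) (fun x => by
      fin_cases x
      · rfl
      · exact e1
      · exact e2)
    intro x y
    rw [this x, this y]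

theorem W_exT (t : Rˣ) (k n : ℕ) (hD : 1 - ee1 t n * bb t k = 0) :
    ∃ c' : (ins (pushN base false 0 (2 * n)) true 1 k).P → R, IsAlx t (W k n) c' ∧
      ((∀ x y, c' x = c' y) → ee1 t n = 0) := by
  set b : Fin 3 → R := ![0, 1, ee1 t n] with hb
  have e1 : ExT t base (fun j => b (base.upper j)) (fun j => b (base.lower j)) :=
    ⟨b, ⟨fun _ hx => absurd hx List.not_mem_nil, fun _ hx => absurd hx List.not_mem_nil⟩,
      fun _ => rfl, fun _ => rfl⟩
  obtain ⟨c', hc', hu, hl⟩ := (tw_W t k n).ex _ _ e1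
  have key : ∀ j : Fin 3, totW (ee1 t n) (bb t k) (fun j => b (base.lower j)) j = b (base.upper j) := by
    rw [totW_eq]
    intro j
    fin_cases j
    · simp [base, hb]
    · simp [base, hb]
      linear_combination hD
    · simp [base, hb]
      linear_combination hD
  refine ⟨c', (colT_close t _ _).2 ⟨hc', fun j => ?_⟩, fun hφ => ?_⟩
  · rw [hl, hu, key]
  · have h2 := hφ ((ins (pushN base false 0 (2 * n)) true 1 k).upper (0 : Fin 3))
      ((ins (pushN base false 0 (2 * n)) true 1 k).upper (2 : Fin 3))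
    rw [hu, hu] at h2
    exact h2

end

theorem ex_tW (k n : ℕ) (hk : 0 < k) (hn : 0 < n) : ∃ t : ℂˣ, 1 - ee1 t n * bb t k = 0 := by
  set p : Polynomial ℂ := Polynomial.C (k * n : ℂ) * (1 - Polynomial.X) ^ 3 - Polynomial.X ^ 2 with hp
  have hkn : (0 : ℝ) < k * n := by positivity
  have hdeg : p.degree ≠ 0 := by
    intro h
    have h1 := Polynomial.eq_C_of_degree_eq_zero h
    have e0 : p.eval 0 = (k * n : ℂ) := by
      rw [hp]; simp
    have e1 : p.eval 1 = -1 := by
      rw [hp]; simp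
    rw [h1, Polynomial.eval_C] at e0 e1
    have h2 : (k * n : ℂ) = -1 := e0.symm.trans e1
    have h3 : (k * n : ℝ) = -1 := by exact_mod_cast h2
    linarith
  obtain ⟨x, hx⟩ := IsAlgClosed.exists_root p hdeg
  have hx' : (k * n : ℂ) * (1 - x) ^ 3 - x ^ 2 = 0 := by
    have := hx
    rw [Polynomial.IsRoot.def, hp] at this
    simpa using this
  have hx0 : x ≠ 0 := by
    rintro rfl
    have h4 : (k * n : ℂ) = 0 := by linear_combination hx'
    have h5 : (k * n : ℝ) = 0 := by exact_mod_cast h4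
    linarith
  refine ⟨Units.mk0 x hx0, ?_⟩
  unfold bb ee1
  simp only [Units.val_mk0, Units.val_inv_eq_inv_val]
  field_simp
  linear_combination -hx'

theorem W_nc (k n : ℕ) (hk : 0 < k) (hn : 0 < n) : ¬ Classical (W k n) := by
  intro h
  obtain ⟨t, ht⟩ := ex_tW k n hk hn
  have hti : (t : ℂ) * (↑t⁻¹ : ℂ) - 1 = 0 := by rw [Units.mul_inv, sub_self]
  obtain ⟨c, hc, hs⟩ := W_exT t k n ht
  have hne : ¬ ∀ x y, c x = c y := by
    intro h1
    rw [hs h1] at ht
    norm_num at ht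
  obtain ⟨c', hc', hn'⟩ := classical_sym h t c hc hne
  obtain ⟨d, hd, hd'⟩ := W_backT t⁻¹ k n c' hc'
  refine hn' (hd' ((mul_eq_zero.1 hd).resolve_left fun h5 => ?_))
  have e : bb t⁻¹ k = bb t k := by
    unfold bb
    rw [inv_inv]
    ring
  rw [e] at h5
  have hb : bb t k ≠ 0 := by
    intro h6
    rw [h6] at ht
    norm_num at ht
  have h6 : ee1 t⁻¹ n = ee1 t n := by
    have : (ee1 t n - ee1 t⁻¹ n) * bb t k = 0 := by linear_combination h5 - ht
    exact (sub_eq_zero.1 ((mul_eq_zero.1 this).resolve_right hb)).symm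
  have hn0 : (n : ℂ) ≠ 0 := by exact_mod_cast hn.ne'
  have h7 : (t : ℂ) = (↑t⁻¹ : ℂ) := by
    unfold ee1 at h6
    rw [inv_inv] at h6
    have := mul_left_cancel₀ hn0 h6
    linear_combination -this
  have h8 : ((t : ℂ) - 1) * ((t : ℂ) + 1) = 0 := by
    linear_combination hti + (t : ℂ) * h7
  rcases mul_eq_zero.1 h8 with h9 | h9
  · have h10 : (t : ℂ) = 1 := by linear_combination h9
    refine hb ?_
    unfold bb
    rw [← h7, h10]
    ring
  · have h10 : (t : ℂ) = -1 := by linear_combination h9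
    unfold bb ee1 at ht
    rw [← h7, h10] at ht
    have h11 : (8 * k * n : ℂ) = 1 := by linear_combination -ht
    have h12 : (8 * k * n : ℝ) = 1 := by exact_mod_cast h11
    have h13 : 8 * k * n = 1 := by exact_mod_cast h12
    rw [mul_assoc] at h13
    omega

end Pool.Agent.K4H9.AL
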