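import Pool.Agent.K4H9.AL.Exp2
import Pool.Agent.K4H9.AL.NC

/-! Exponentially many knots: they are not classical. -/

set_option autoImplicit false
set_option linter.unusedVariables false

namespace Pool.Agent.K4H9.AL

open Pool.Agent.H891R2.Jones Pool.Agent.K4H9.NJ

/-! ### counting -/

theorem many (s : ℕ) : ∃ w : Fin (2 ^ s) → List Bool, (∀ i, (w i).length = 2 * s + 1) ∧
    ∀ i j, i ≠ j → (de (w i)).1 ≠ (de (w j)).1 := by
  classical
  set T : Finset ℤ := (Finset.univ : Finset (Bool × (Fin (2 * s) → Bool))).image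
    (fun x => (de (x.1 :: List.ofFn x.2)).1) with hT
  have hcard : 2 ^ (2 * s) ≤ T.card * T.card := by
    have h1 : Fintype.card (Fin (2 * s) → Bool) = 2 ^ (2 * s) := by simp
    rw [← h1, ← Finset.card_univ, ← Finset.card_product]
    refine Finset.card_le_card_of_injOn (fun u => ((de (false :: List.ofFn u)).1,
      (de (true :: List.ofFn u)).1)) ?_ ?_
    · intro u _
      exact Finset.mem_product.2 ⟨Finset.mem_image.2 ⟨(false, u), Finset.mem_univ _, rfl⟩,
        Finset.mem_image.2 ⟨(true, u), Finset.mem_univ _, rfl⟩⟩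
    · intro u _ u' _ h
      have e1 := congrArg Prod.fst h
      have e2 := congrArg Prod.snd h
      simp only [de, nb, if_true, Bool.false_eq_true, if_false] at e1 e2
      push_cast at e1 e2
      have e3 : (de (List.ofFn u)).1 = (de (List.ofFn u')).1 := by linarith
      have e4 : (de (List.ofFn u)).2 = (de (List.ofFn u')).2 := by linarith
      exact List.ofFn_injective (de_inj _ _ (by simp) (Prod.ext e3 e4))
  have hc2 : 2 ^ s ≤ T.card := by
    by_contra h
    push Not at h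
    have h2 : T.card * T.card < 2 ^ s * 2 ^ s := Nat.mul_lt_mul'' h h
    rw [← pow_add, ← two_mul] at h2
    omega
  obtain ⟨T', hT', hT'c⟩ := Finset.exists_subset_card_eq hc2
  have e := T'.equivFinOfCardEq hT'c
  have hw : ∀ i : Fin (2 ^ s), ∃ l : List Bool, l.length = 2 * s + 1 ∧ (de l).1 = (e.symm i : ℤ) := by
    intro i
    have h1 := hT' (e.symm i).2
    rw [hT, Finset.mem_image] at h1
    obtain ⟨x, _, hx⟩ := h1
    exact ⟨x.1 :: List.ofFn x.2, by simp, hx⟩
  choose w hw1 hw2 using hw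
  refine ⟨w, hw1, fun i j hij h => hij ?_⟩
  rw [hw2, hw2] at h
  exact e.symm.injective (Subtype.ext h)

/-! ### Alexander colourings -/

section

variable {R : Type} [CommRing R]

/-- the vectors -/
def svT (t : Rˣ) : List Bool → (Fin 3 → R) → (Fin 3 → R)
  | [], y => y
  | b :: l, y => adR (pl 1 h1) (pr 1 h1) (((1 : ℕ) : R) * (sgR true * (2 - (t : R) - (↑t⁻¹ : R))))
    (adR (pl 0 h0) (pr 0 h0) ((nb b : R) * (sgR true * (sT t true - 1))) (svT t l y))

/-- the pairs -/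
def deT (t : Rˣ) : List Bool → R × R
  | [] => (1, 0)
  | b :: l => ((deT t l).1 + (2 - (t : R) - (↑t⁻¹ : R)) * ((deT t l).2 + nb b * (1 - (↑t⁻¹ : R)) * (deT t l).1),
      (deT t l).2 + nb b * (1 - (↑t⁻¹ : R)) * (deT t l).1)

theorem tw_XO (t : Rˣ) : ∀ l, Tw t base (XO l) (svT t l)
  | [] => Tw.refl t base
  | b :: l => by
    have a1 := tw_pushN t (XO l) true 0 h0 (alt (XO_up l) 0 h0) (nb b)
    have a2 := tw_ins t (pushN (XO l) true 0 (2 * nb b)) true 1 1 h1
      (alt ((pushN_up _ _ _ _ h0).trans (XO_up l)) 1 h1)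
    rw [XO_up] at a1
    exact ((tw_XO t l).trans a1).trans a2

theorem svT_eq (t : Rˣ) (y : Fin 3 → R) (hy : y 1 = y 2) : ∀ l,
    svT t l y 1 - svT t l y 0 = (deT t l).1 * (y 1 - y 0) ∧
    svT t l y 2 - svT t l y 1 = (deT t l).2 * (y 1 - y 0) ∧
    svT t l y 0 - svT t l y 1 + svT t l y 2 = y 0
  | [] => by simp [svT, deT, hy]
  | b :: l => by
    obtain ⟨a1, a2, a3⟩ := svT_eq t y hy l
    refine ⟨?_, ?_, ?_⟩
    · simp [svT, deT, adR, pl, pr, sgR, sT]
      linear_combination (1 + (2 - (t : R) - (↑t⁻¹ : R)) * nb b * (1 - (↑t⁻¹ : R))) * a1 +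
        (2 - (t : R) - (↑t⁻¹ : R)) * a2
    · simp [svT, deT, adR, pl, pr, sgR, sT]
      linear_combination nb b * (1 - (↑t⁻¹ : R)) * a1 + a2
    · simp [svT, adR, pl, pr, sgR, sT]
      linear_combination a3

theorem XT_back (t : Rˣ) (l : List Bool) (c' : (XO l).P → R) (hc' : IsAlx t (XD l) c') :
    ∃ d : R, (deT t l).1 * d = 0 ∧ (d = 0 → ∀ x y, c' x = c' y) := by
  obtain ⟨(c : Fin 3 → R), hc, hu, hl, hs⟩ := (tw_XO t l).back c' ((colT_close t _ _).1 hc').1
  have hcl := ((colT_close t _ _).1 hc').2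
  set y : Fin 3 → R := fun j => c (base.lower j) with hy
  have key : ∀ j : Fin 3, svT t l y j = c (base.upper j) := by
    intro j
    rw [← hu j, ← hcl j, hl j]
  obtain ⟨a1, a2, a3⟩ := svT_eq t y rfl l
  have k0 : svT t l y 0 = c 2 := key 0
  have k1 : svT t l y 1 = c 2 := key 1
  have y1 : y 1 = c 1 := rfl
  have y0 : y 0 = c 0 := rfl
  refine ⟨c 1 - c 0, ?_, fun hd => ?_⟩
  · rw [k0, k1, sub_self, y1, y0] at a1
    exact a1.symm
  · have e1 : c 1 = c 0 := sub_eq_zero.1 hd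
    have e2 : c 2 = c 0 := by
      rw [y1, y0] at a2
      rw [y0] at a3
      linear_combination -k0 + a3 - a2 - (deT t l).2 * hd
    have := hs (c 0) (fun x => by
      fin_cases x
      · rfl
      · exact e1
      · exact e2)
    intro x y
    rw [this x, this y]

theorem XT_ex (t : Rˣ) (l : List Bool) (hD : (deT t l).1 = 0) :
    ∃ c' : (XO l).P → R, IsAlx t (XD l) c' ∧ ((∀ x y, c' x = c' y) → (deT t l).2 = 0) := by
  set y : Fin 3 → R := ![0, 1, 1] with hy
  obtain ⟨a1, a2, a3⟩ := svT_eq t y rfl l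
  set b : Fin 3 → R := ![0, 1, svT t l y 0] with hb
  have e1 : ExT t base (fun j => b (base.upper j)) (fun j => b (base.lower j)) :=
    ⟨b, ⟨fun _ hx => absurd hx List.not_mem_nil, fun _ hx => absurd hx List.not_mem_nil⟩,
      fun _ => rfl, fun _ => rfl⟩
  have e0 : (fun j => b (base.lower j)) = y := by
    funext j
    fin_cases j <;> simp [base, hb, hy]
  rw [e0] at e1
  obtain ⟨c', hc', hu, hl⟩ := (tw_XO t l).ex _ _ e1
  have y0 : y 0 = 0 := rfl
  have y1 : y 1 = 1 := rfl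
  rw [hD, zero_mul] at a1
  rw [y0] at a3
  rw [y1, y0] at a2
  have b1 : svT t l y 1 = svT t l y 0 := by linear_combination a1
  have b2 : svT t l y 2 = 0 := by linear_combination a3 + a1
  refine ⟨c', (colT_close t _ _).2 ⟨hc', fun j => ?_⟩, fun hφ => ?_⟩
  · rw [hl, hu]
    fin_cases j
    · simp [base, hb]
    · simp [base, hb, b1]
    · simp [base, hb, b2]
  · have h2 := hφ ((XO l).upper (0 : Fin 3)) ((XO l).upper (2 : Fin 3))
    rw [hu, hu] at h2
    have h3 : svT t l y 0 = 0 := h2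
    linear_combination -a2 + b2 - b1 - h3

end

/-! ### real parameters -/

/-- the pairs, as functions of a real number -/
noncomputable def rr : List Bool → ℝ → ℝ × ℝ
  | [], _ => (1, 0)
  | b :: l, x => ((rr l x).1 + (2 - x - x⁻¹) * ((rr l x).2 + nb b * (1 - x⁻¹) * (rr l x).1),
      (rr l x).2 + nb b * (1 - x⁻¹) * (rr l x).1)

theorem deT_rr (t : ℝˣ) : ∀ l, deT t l = rr l (t : ℝ)
  | [] => rfl
  | b :: l => by
    simp only [deT, rr, deT_rr t l, Units.val_inv_eq_inv_val]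

theorem rr_cont : ∀ l, ContinuousOn (fun x => (rr l x).1) (Set.Icc 1 8) ∧
    ContinuousOn (fun x => (rr l x).2) (Set.Icc 1 8)
  | [] => ⟨continuousOn_const, continuousOn_const⟩
  | b :: l => by
    obtain ⟨a1, a2⟩ := rr_cont l
    have hinv : ContinuousOn (fun x : ℝ => x⁻¹) (Set.Icc 1 8) :=
      continuousOn_inv₀.mono fun x hx => by
        have : (1 : ℝ) ≤ x := hx.1
        exact ne_of_gt (by linarith)
    have h2 : ContinuousOn (fun x => (rr l x).2 + nb b * (1 - x⁻¹) * (rr l x).1) (Set.Icc 1 8) :=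
      a2.add ((continuousOn_const.mul (continuousOn_const.sub hinv)).mul a1)
    exact ⟨a1.add (((continuousOn_const.sub continuousOn_id).sub hinv).mul h2), h2⟩

theorem rr_one : ∀ l, (rr l 1).1 = 1
  | [] => rfl
  | b :: l => by
    simp only [rr, rr_one l]
    norm_num

theorem rr_eight : ∀ l : List Bool, 0 < (-1 : ℝ) ^ l.length * (rr l 8).1 ∧
    0 ≤ (-1 : ℝ) ^ l.length * ((2 - 8 - 8⁻¹) * (rr l 8).2) ∧
    (-1 : ℝ) ^ l.length * ((2 - 8 - 8⁻¹) * (rr l 8).2) ≤ 2 * ((-1 : ℝ) ^ l.length * (rr l 8).1)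
  | [] => by simp [rr]
  | b :: l => by
    obtain ⟨a1, a2, a3⟩ := rr_eight l
    set σ : ℝ := (-1 : ℝ) ^ l.length with hσ
    have e : (-1 : ℝ) ^ (b :: l).length = -σ := by
      rw [List.length_cons, pow_succ]
      ring
    rw [e]
    simp only [rr]
    set d := (rr l 8).1
    set g := (rr l 8).2
    have hb : (1 : ℝ) ≤ nb b := by cases b <;> norm_num [nb]
    have h4 : 0 ≤ ((nb b : ℝ) - 1) * (σ * d) := mul_nonneg (by linarith) a1.le
    refine ⟨?_, ?_, ?_⟩
    · nlinarith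
    · nlinarith
    · nlinarith

theorem rr_small (x : ℝ) (h0 : 0 < x) (h1 : x < 1) : ∀ l, 1 ≤ (rr l x).1 ∧ (rr l x).2 ≤ 0
  | [] => by simp [rr]
  | b :: l => by
    obtain ⟨a1, a2⟩ := rr_small x h0 h1 l
    have hx : 1 < x⁻¹ := (one_lt_inv₀ h0).2 h1
    have hx2 : 2 - x - x⁻¹ ≤ 0 := by
      have : 0 ≤ (1 - x) ^ 2 * x⁻¹ := by positivity
      have h3 : x * x⁻¹ = 1 := mul_inv_cancel₀ h0.ne'
      nlinarith
    have hb : (1 : ℝ) ≤ nb b := by cases b <;> norm_num [nb]
    have h5 : (rr l x).2 + nb b * (1 - x⁻¹) * (rr l x).1 ≤ 0 := by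
      have : 0 ≤ (nb b : ℝ) * (x⁻¹ - 1) * (rr l x).1 :=
        mul_nonneg (mul_nonneg (by linarith) (by linarith)) (by linarith)
      nlinarith
    refine ⟨?_, h5⟩
    simp only [rr]
    have := mul_nonneg_of_nonpos_of_nonpos hx2 h5
    linarith

theorem rr_ne (x : ℝ) : ∀ l, ¬ ((rr l x).1 = 0 ∧ (rr l x).2 = 0)
  | [] => by simp [rr]
  | b :: l => by
    rintro ⟨h2, h3⟩
    simp only [rr] at h2 h3
    rw [h3, mul_zero, add_zero] at h2
    rw [h2, mul_zero, add_zero] at h3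
    exact rr_ne x l ⟨h2, h3⟩

theorem XD_nc (l : List Bool) (hl : Odd l.length) : ¬ Classical (XD l) := by
  intro h
  obtain ⟨a1, -, -⟩ := rr_eight l
  rw [hl.neg_one_pow] at a1
  have h8 : (rr l 8).1 ≤ 0 := by linarith
  obtain ⟨x, hx, hx0⟩ := intermediate_value_Icc' (by norm_num : (1 : ℝ) ≤ 8) (rr_cont l).1
    (show (0 : ℝ) ∈ Set.Icc ((rr l 8).1) ((rr l 1).1) from ⟨h8, by rw [rr_one]; norm_num⟩)
  have hx0' : (rr l x).1 = 0 := hx0
  have hx1 : 1 < x := by
    refine lt_of_le_of_ne hx.1 ?_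
    rintro rfl
    rw [rr_one] at hx0'
    exact one_ne_zero hx0'
  set t : ℝˣ := Units.mk0 x (by linarith) with ht
  have htx : (t : ℝ) = x := rfl
  obtain ⟨c, hc, hs⟩ := XT_ex t l (by rw [deT_rr, htx, hx0'])
  obtain ⟨c', hc', hn⟩ := classical_sym h t c hc (fun h2 => by
    have h3 := hs h2
    rw [deT_rr, htx] at h3
    exact rr_ne x l ⟨hx0', h3⟩)
  obtain ⟨d, hd, hd'⟩ := XT_back t⁻¹ l c' hc'
  refine hn (hd' ((mul_eq_zero.1 hd).resolve_left ?_))
  have e : ((t⁻¹ : ℝˣ) : ℝ) = x⁻¹ := by rw [Units.val_inv_eq_inv_val, htx]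
  rw [deT_rr, e]
  have := (rr_small x⁻¹ (by positivity) (inv_lt_one_of_one_lt₀ hx1) l).1
  linarith

end Pool.Agent.K4H9.AL
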