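import Pool.Agent.K4H9.AL.Def

/-! Alexander colourings and their behaviour under the moves. -/

set_option autoImplicit false

namespace Pool.Agent.K4H9.AL

open Pool.Agent.H891R2.Jones Pool.Agent.K4H9.NJ

section aff

variable {R : Type} [CommRing R]

/-- the affine maps of an Alexander colouring -/
def A (t : Rˣ) (s : Bool) (o x : R) : R :=
  if s then (t : R) * x + (1 - t) * o else ((t⁻¹ : Rˣ) : R) * x + (1 - ((t⁻¹ : Rˣ) : R)) * o

theorem A_not (t : Rˣ) (s : Bool) (o x : R) : A t s o (A t (!s) o x) = x := by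
  have h : (t : R) * ((t⁻¹ : Rˣ) : R) = 1 := Units.mul_inv t
  cases s
  · simp only [A, Bool.not_false, if_true, Bool.false_eq_true, if_false]
    linear_combination (x - o) * h
  · simp only [A, Bool.not_true, if_true, Bool.false_eq_true, if_false]
    linear_combination (x - o) * h

theorem A_not' (t : Rˣ) (s : Bool) (o x : R) : A t (!s) o (A t s o x) = x := by
  have := A_not t (!s) o x
  rwa [Bool.not_not] at this

theorem A_self (t : Rˣ) (s : Bool) (o : R) : A t s o o = o := by
  cases s <;> simp only [A, if_true, Bool.false_eq_true, if_false] <;> ring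

theorem A_A (t : Rˣ) (s s' : Bool) (o p x : R) :
    A t s o (A t s' p x) = A t s' (A t s o p) (A t s o x) := by
  cases s <;> cases s' <;> simp only [A, if_true, Bool.false_eq_true, if_false] <;> ring

theorem A_iff (t : Rˣ) (s : Bool) (o x y : R) : x = A t s o y ↔ y = A t (!s) o x := by
  constructor
  · rintro rfl
    rw [A_not']
  · rintro rfl
    rw [A_not]

end aff

variable {P Q : Type} {R : Type} [CommRing R]

theorem CrT_map (t : Rˣ) (f : P → Q) (col : Q → R) (x : Crossing P) :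
    CrT t col (x.map f) ↔ CrT t (col ∘ f) x := Iff.rfl

theorem IsAlx_map (t : Rˣ) (f : P → Q) (col : Q → R) (D : Diagram P) :
    IsAlx t (mapD f D) col ↔ IsAlx t D (col ∘ f) := by
  unfold IsAlx mapD
  simp only [List.forall_mem_map]
  rfl

theorem CrT_cr (t : Rˣ) (col : P → R) (s : Bool) (o o' u u' : P) :
    CrT t col (cr s o o' u u') ↔ col o = col o' ∧ col u = A t s (col o) (col u') := by
  unfold CrT cr
  cases s
  · simp only [Bool.false_eq_true, if_false, if_true]
    refine and_congr_right fun _ => ?_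
    have h2 := A_iff t false (col o) (col u) (col u')
    rw [h2]
    simp only [A, Bool.not_false, if_true]
  · simp only [if_true, Bool.false_eq_true, if_false, A]
    constructor
    · rintro ⟨h1, h2⟩
      exact ⟨h1.symm, by rw [h2, h1]⟩
    · rintro ⟨h1, h2⟩
      exact ⟨h1.symm, by rw [h2, h1]⟩

theorem CrT_turn (t : Rˣ) (col : P → R) (x : Crossing P) : CrT t col (turn x) ↔ CrT t col x := by
  unfold CrT turn
  dsimp only
  cases x.overFwd <;> simp only [Bool.not_true, Bool.not_false, if_true, Bool.false_eq_true, if_false]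
  · constructor
    · rintro ⟨h1, h2⟩
      exact ⟨h1.symm, by rw [h2, h1]⟩
    · rintro ⟨h1, h2⟩
      exact ⟨h1.symm, by rw [h2, h1]⟩
  · constructor
    · rintro ⟨h1, h2⟩
      exact ⟨h1.symm, by rw [h2, h1]⟩
    · rintro ⟨h1, h2⟩
      exact ⟨h1.symm, by rw [h2, h1]⟩

theorem TrT.trans {P Q Q' : Type} {D : Diagram P} {E : Diagram Q} {F : Diagram Q'} (h1 : TrT D E)
    (h2 : TrT E F) : TrT D F := by
  intro R _ t col hc
  obtain ⟨c1, hc1, hs1⟩ := h1 R t col hc
  obtain ⟨c2, hc2, hs2⟩ := h2 R t c1 hc1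
  exact ⟨c2, hc2, fun h => hs1 (hs2 h)⟩

theorem TrT.refl (D : Diagram P) : TrT D D := fun _ _ _ col hc => ⟨col, hc, fun h => h⟩

/-- a colouring of the same points -/
theorem tr_same {D E : Diagram P}
    (h : ∀ (R : Type) [CommRing R] (t : Rˣ) (col : P → R), IsAlx t D col → IsAlx t E col) :
    TrT D E := fun R _ t col hc => ⟨col, h R t col hc, fun h => h⟩

theorem tr_iso (e : P ≃ Q) (D : Diagram P) : TrT D (mapD e D) ∧ TrT (mapD e D) D := by
  constructor
  · intro R _ t col hc
    refine ⟨col ∘ e.symm, ?_, fun h x y => ?_⟩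
    · rw [IsAlx_map]
      have : (col ∘ e.symm) ∘ e = col := by funext x; simp
      rw [this]
      exact hc
    · have := h (e x) (e y)
      simpa using this
  · intro R _ t col hc
    refine ⟨col ∘ e, (IsAlx_map _ _ _ _).1 hc, fun h x y => ?_⟩
    have := h (e.symm x) (e.symm y)
    simpa using this

theorem isAlx_perm (t : Rˣ) {A A' : List (P × P)} {C C' : List (Crossing P)} (h1 : A.Perm A')
    (h2 : C.Perm C') (col : P → R) (h : IsAlx t ⟨A, C⟩ col) : IsAlx t ⟨A', C'⟩ col :=
  ⟨fun x hx => h.1 x (h1.mem_iff.2 hx), fun x hx => h.2 x (h2.mem_iff.2 hx)⟩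

theorem isAlx_cons_arc (t : Rˣ) (x : P × P) (A : List (P × P)) (C : List (Crossing P)) (col : P → R) :
    IsAlx t ⟨x :: A, C⟩ col ↔ col x.1 = col x.2 ∧ IsAlx t ⟨A, C⟩ col := by
  unfold IsAlx
  simp only [List.forall_mem_cons]
  tauto

theorem isAlx_cons_cr (t : Rˣ) (x : Crossing P) (A : List (P × P)) (C : List (Crossing P))
    (col : P → R) : IsAlx t ⟨A, x :: C⟩ col ↔ CrT t col x ∧ IsAlx t ⟨A, C⟩ col := by
  unfold IsAlx
  simp only [List.forall_mem_cons]
  tauto

theorem isAlx_mk_map (t : Rˣ) (f : P → Q) (A : List (P × P)) (C : List (Crossing P)) (col : Q → R) :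
    IsAlx t ⟨A.map (Prod.map f f), C.map (Crossing.map f)⟩ col ↔ IsAlx t ⟨A, C⟩ (col ∘ f) :=
  IsAlx_map t f col ⟨A, C⟩

theorem tr_contract (p : P) (A : List (Option P × Option P)) (C : List (Crossing (Option P))) :
    TrT (⟨(some p, none) :: A, C⟩ : Diagram (Option P)) (mapD (fun x => x.getD p) ⟨A, C⟩) ∧
      TrT (mapD (fun x => x.getD p) ⟨A, C⟩) (⟨(some p, none) :: A, C⟩ : Diagram (Option P)) := by
  constructor
  · intro R _ t col hc
    rw [isAlx_cons_arc] at hc
    have e : (col ∘ some) ∘ (fun x : Option P => x.getD p) = col := by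
      funext x
      cases x with
      | none => exact hc.1
      | some x => rfl
    refine ⟨col ∘ some, ?_, fun h x y => ?_⟩
    · rw [IsAlx_map, e]
      exact hc.2
    · have := h (x.getD p) (y.getD p)
      rw [← e]
      exact this
  · intro R _ t col hc
    rw [IsAlx_map] at hc
    refine ⟨col ∘ (fun x : Option P => x.getD p), ?_, fun h x y => ?_⟩
    · rw [isAlx_cons_arc]
      exact ⟨rfl, hc⟩
    · exact h (some x) (some y)

theorem tr_r1 (s : Bool) (p q : P) (A : List (P × P)) (C : List (Crossing P)) (x : Crossing (Option P))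
    (hx : x = cr s (some p) none none (some q) ∨ x = cr s none (some q) (some p) none) :
    TrT ⟨(p, q) :: A, C⟩ (⟨A.map (Prod.map some some), x :: C.map (Crossing.map some)⟩ :
        Diagram (Option P)) ∧
      TrT (⟨A.map (Prod.map some some), x :: C.map (Crossing.map some)⟩ : Diagram (Option P))
        ⟨(p, q) :: A, C⟩ := by
  have key : ∀ (R : Type) [CommRing R] (t : Rˣ) (col : Option P → R), CrT t col x ↔
      col none = col (some p) ∧ col (some p) = col (some q) := by
    intro R _ t col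
    rcases hx with rfl | rfl
    · rw [CrT_cr]
      constructor
      · rintro ⟨h1, h2⟩
        refine ⟨h1.symm, ?_⟩
        have h3 := (A_iff _ _ _ _ _).1 h2
        rw [← h1, A_self] at h3
        exact h3.symm
      · rintro ⟨h1, h2⟩
        refine ⟨h1.symm, ?_⟩
        rw [← h2, A_self, h1]
    · rw [CrT_cr, A_self]
      constructor
      · rintro ⟨h1, h2⟩
        exact ⟨h2.symm, h2.trans h1⟩
      · rintro ⟨h1, h2⟩
        exact ⟨h1.trans h2, h1.symm⟩
  constructor
  · intro R _ t col hc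
    rw [isAlx_cons_arc] at hc
    refine ⟨fun y => col (y.getD p), ?_, fun h y z => h (some y) (some z)⟩
    rw [isAlx_cons_cr, key, isAlx_mk_map]
    exact ⟨⟨rfl, hc.1⟩, hc.2⟩
  · intro R _ t col hc
    rw [isAlx_cons_cr, key, isAlx_mk_map] at hc
    refine ⟨col ∘ some, ?_, fun h => ?_⟩
    · rw [isAlx_cons_arc]
      exact ⟨hc.1.2, hc.2⟩
    · have h2 : ∀ y, col y = col (some p) := by
        intro y
        cases y with
        | none => exact hc.1.1
        | some y => exact h y p
      intro y z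
      rw [h2 y, h2 z]

theorem tr_r2 (p q r r' : P) (A' : List (P × P)) (C : List (Crossing P)) (x y : Crossing (P ⊕ Bool))
    (s : Bool)
    (hx : (x = cr s (.inl p) (.inr false) (.inl r) (.inr true) ∧
        y = cr (!s) (.inr false) (.inl q) (.inr true) (.inl r')) ∨
      (x = cr s (.inl p) (.inr false) (.inr true) (.inl r') ∧
        y = cr (!s) (.inr false) (.inl q) (.inl r) (.inr true))) :
    TrT ⟨(p, q) :: (r, r') :: A', C⟩
        (⟨A'.map (Prod.map .inl .inl), x :: y :: C.map (Crossing.map .inl)⟩ :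
        Diagram (P ⊕ Bool)) ∧
      TrT (⟨A'.map (Prod.map .inl .inl), x :: y :: C.map (Crossing.map .inl)⟩ : Diagram (P ⊕ Bool))
        ⟨(p, q) :: (r, r') :: A', C⟩ := by
  have key : ∃ s' : Bool, ∀ (R : Type) [CommRing R] (t : Rˣ) (col : P ⊕ Bool → R),
      (CrT t col x ∧ CrT t col y) ↔
      (col (.inr false) = col (.inl p) ∧ col (.inr true) = A t s' (col (.inl p)) (col (.inl r))) ∧
      (col (.inl p) = col (.inl q) ∧ col (.inl r) = col (.inl r')) := by
    rcases hx with ⟨rfl, rfl⟩ | ⟨rfl, rfl⟩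
    · refine ⟨!s, fun R _ t col => ?_⟩
      rw [CrT_cr, CrT_cr]
      constructor
      · rintro ⟨⟨h1, h2⟩, h3, h4⟩
        refine ⟨⟨h1.symm, (A_iff _ _ _ _ _).1 h2⟩, h1.trans h3, ?_⟩
        rw [h2, h4, ← h1, A_not]
      · rintro ⟨⟨h1, h2⟩, h3, h4⟩
        refine ⟨⟨h1.symm, by rw [h2, A_not]⟩, h1.trans h3, ?_⟩
        rw [h2, h1, h4]
    · refine ⟨s, fun R _ t col => ?_⟩
      rw [CrT_cr, CrT_cr]
      constructor
      · rintro ⟨⟨h1, h2⟩, h3, h4⟩
        have h5 : col (.inl r) = col (.inl r') := by rw [h4, h2, ← h1, A_not']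
        refine ⟨⟨h1.symm, by rw [h2, h5]⟩, h1.trans h3, h5⟩
      · rintro ⟨⟨h1, h2⟩, h3, h4⟩
        refine ⟨⟨h1.symm, by rw [h2, h4]⟩, h1.trans h3, ?_⟩
        rw [h2, h1, A_not']
  obtain ⟨s', key⟩ := key
  have key2 : ∀ (R : Type) [CommRing R] (t : Rˣ) (col : P ⊕ Bool → R),
      IsAlx t (⟨A'.map (Prod.map .inl .inl), x :: y :: C.map (Crossing.map .inl)⟩ : Diagram (P ⊕ Bool))
        col ↔ ((col (.inr false) = col (.inl p) ∧
          col (.inr true) = A t s' (col (.inl p)) (col (.inl r))) ∧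
      (col (.inl p) = col (.inl q) ∧ col (.inl r) = col (.inl r'))) ∧ IsAlx t ⟨A', C⟩ (col ∘ .inl) := by
    intro R _ t col
    rw [isAlx_cons_cr, isAlx_cons_cr, isAlx_mk_map, ← key]
    tauto
  constructor
  · intro R _ t col hc
    rw [isAlx_cons_arc, isAlx_cons_arc] at hc
    refine ⟨Sum.elim col (fun b => if b then A t s' (col p) (col r) else col p), ?_,
      fun h y z => h (.inl y) (.inl z)⟩
    rw [key2]
    exact ⟨⟨⟨rfl, rfl⟩, hc.1, hc.2.1⟩, hc.2.2⟩
  · intro R _ t col hc
    rw [key2] at hc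
    obtain ⟨⟨⟨h1, h2⟩, h3, h4⟩, h5⟩ := hc
    refine ⟨col ∘ .inl, ?_, fun h => ?_⟩
    · rw [isAlx_cons_arc, isAlx_cons_arc]
      exact ⟨h3, h4, h5⟩
    · have h6 : ∀ y, col y = col (.inl p) := by
        intro y
        rcases y with y | _ | _
        · exact h y p
        · exact h1
        · have h7 : col (.inl r) = col (.inl p) := h r p
          rw [h2, h7, A_self]
      intro y z
      rw [h6 y, h6 z]

theorem isAlx_append (t : Rˣ) (X C : List (Crossing P)) (A : List (P × P)) (col : P → R) :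
    IsAlx t ⟨A, X ++ C⟩ col ↔ (∀ x ∈ X, CrT t col x) ∧ IsAlx t ⟨A, C⟩ col := by
  unfold IsAlx
  simp only [List.forall_mem_append]
  tauto

/-- the new colours in a triangle -/
def flipT (t : Rˣ) (om ob s2 : Bool) (m0 m2 b0 b2 : P) (col : P ⊕ Fin 3 → R) : P ⊕ Fin 3 → R
  | .inl x => col (.inl x)
  | .inr i => if i = 0 then col (.inr 0) else if i = 1 then
      (if om then col (.inl m0) else col (.inl m2)) else
      (if ob then A t s2 (col (.inr 0)) (col (.inl b2)) else A t (!s2) (col (.inr 0)) (col (.inl b0)))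

theorem tri_col (t : Rˣ) (ot om ob s1 s2 s3 : Bool) (t0 t2 m0 m2 b0 b2 : P) (col : P ⊕ Fin 3 → R) :
    (∀ x ∈ tri ot om ob s1 s2 s3 (pts t0 t2 0) (pts m0 m2 1) (pts b0 b2 2), CrT t col x) ↔
      (col (.inl t0) = col (.inr 0) ∧ col (.inr 0) = col (.inl t2)) ∧
      (if om then col (.inl m0) = A t s1 (col (.inr 0)) (col (.inr 1)) ∧ col (.inr 1) = col (.inl m2)
        else col (.inl m0) = col (.inr 1) ∧ col (.inr 1) = A t s1 (col (.inr 0)) (col (.inl m2))) ∧
      (if ob then col (.inl b0) = A t s2 (col (.inr 0)) (col (.inr 2)) ∧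
          col (.inr 2) = A t s3 (col (.inr 1)) (col (.inl b2))
        else col (.inl b0) = A t s3 (col (.inr 1)) (col (.inr 2)) ∧
          col (.inr 2) = A t s2 (col (.inr 0)) (col (.inl b2))) := by
  unfold tri crs
  simp only [List.forall_mem_cons, CrT_cr, List.not_mem_nil, false_imp_iff, implies_true, and_true]
  have e0 : pts t0 t2 0 0 = .inl t0 := rfl
  have e1 : pts t0 t2 0 1 = .inr 0 := rfl
  have e2 : pts t0 t2 0 2 = .inl t2 := rfl
  have e3 : pts m0 m2 1 0 = .inl m0 := rfl
  have e4 : pts m0 m2 1 1 = .inr 1 := rfl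
  have e5 : pts m0 m2 1 2 = .inl m2 := rfl
  have e6 : pts b0 b2 2 0 = .inl b0 := rfl
  have e7 : pts b0 b2 2 1 = .inr 2 := rfl
  have e8 : pts b0 b2 2 2 = .inl b2 := rfl
  cases ot <;> cases om <;> cases ob <;>
    simp only [seg, e0, e1, e2, e3, e4, e5, e6, e7, e8, Bool.not_true, Bool.not_false, if_true,
      if_false, Bool.false_eq_true] <;>
    generalize col (.inl t0) = T0 <;> generalize col (.inr 0) = T1 <;>
    generalize col (.inl t2) = T2 <;> generalize col (.inl m0) = M0 <;>
    generalize col (.inr 1) = M1 <;> generalize col (.inl m2) = M2 <;>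
    constructor <;> rintro ⟨⟨h1, h2⟩, ⟨h3, h4⟩, h5, h6⟩ <;> simp_all

theorem isAlx_tri (t : Rˣ) (ot om ob s1 s2 s3 : Bool) (hs : s1 = ((om == ob) == s2))
    (t0 t2 m0 m2 b0 b2 : P) (A' : List (P × P))
    (C : List (Crossing P)) (col : P ⊕ Fin 3 → R)
    (h : IsAlx t (⟨A'.map (Prod.map .inl .inl),
          tri ot om ob s1 s2 s3 (pts t0 t2 0) (pts m0 m2 1) (pts b0 b2 2) ++
            C.map (Crossing.map .inl)⟩ : Diagram (P ⊕ Fin 3)) col) :
    IsAlx t (⟨A'.map (Prod.map .inl .inl),
          tri (!ot) (!om) (!ob) s1 s2 s3 (pts t0 t2 0) (pts m0 m2 1) (pts b0 b2 2) ++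
            C.map (Crossing.map .inl)⟩ : Diagram (P ⊕ Fin 3)) (flipT t om ob s2 m0 m2 b0 b2 col) ∧
    ((∀ x y, flipT t om ob s2 m0 m2 b0 b2 col x = flipT t om ob s2 m0 m2 b0 b2 col y) →
      ∀ x y, col x = col y) := by
  rw [isAlx_append, isAlx_mk_map] at h ⊢
  obtain ⟨h1, h2⟩ := h
  rw [tri_col] at h1 ⊢
  obtain ⟨⟨h3, h4⟩, h5, h6⟩ := h1
  have e0 : flipT t om ob s2 m0 m2 b0 b2 col (.inr 0) = col (.inr 0) := rfl
  have e1 : flipT t om ob s2 m0 m2 b0 b2 col (.inr 1) =
    if om then col (.inl m0) else col (.inl m2) := rfl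
  have e2 : flipT t om ob s2 m0 m2 b0 b2 col (.inr 2) =
    if ob then A t s2 (col (.inr 0)) (col (.inl b2)) else A t (!s2) (col (.inr 0)) (col (.inl b0)) := rfl
  have e3 : ∀ x, flipT t om ob s2 m0 m2 b0 b2 col (.inl x) = col (.inl x) := fun _ => rfl
  -- the colour of the middle strand below the top strand
  have hm : (if om then col (.inl m0) else col (.inl m2)) =
      if ob then A t s2 (col (.inr 0)) (col (.inr 1)) else A t (!s2) (col (.inr 0)) (col (.inr 1)) := by
    cases om <;> cases ob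
    · have e : s1 = s2 := by rw [hs]; cases s2 <;> rfl
      simp only [Bool.false_eq_true, if_false] at h5 ⊢
      rw [h5.2, e, A_not']
    · have e : s1 = !s2 := by rw [hs]; cases s2 <;> rfl
      simp only [Bool.false_eq_true, if_false, if_true] at h5 ⊢
      rw [h5.2, e, A_not]
    · have e : s1 = !s2 := by rw [hs]; cases s2 <;> rfl
      simp only [Bool.false_eq_true, if_false, if_true] at h5 ⊢
      rw [h5.1, e]
    · have e : s1 = s2 := by rw [hs]; cases s2 <;> rfl
      simp only [if_true] at h5 ⊢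
      rw [h5.1, e]
  refine ⟨⟨?_, h2⟩, ?_⟩
  · rw [e0, e1, e2]
    simp only [e3]
    refine ⟨⟨h3, h4⟩, ?_, ?_⟩
    · cases om
      · simp only [Bool.not_false, if_true, Bool.false_eq_true, if_false] at h5 ⊢
        exact ⟨by rw [h5.1, h5.2], by trivial⟩
      · simp only [Bool.not_true, if_true, Bool.false_eq_true, if_false] at h5 ⊢
        exact ⟨by trivial, by rw [h5.1, h5.2]⟩
    · rw [hm]
      cases ob
      · simp only [Bool.not_false, if_true, Bool.false_eq_true, if_false] at h6 ⊢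
        refine ⟨by rw [A_not], ?_⟩
        rw [h6.1, h6.2, A_A, A_not']
      · simp only [Bool.not_true, if_true, Bool.false_eq_true, if_false] at h6 ⊢
        refine ⟨?_, by trivial⟩
        rw [h6.1, h6.2, A_A]
  · intro h x y
    have g : ∀ x y, col (.inl x) = col (.inl y) := fun x y => h (.inl x) (.inl y)
    have g0 : ∀ x, col (.inl x) = col (.inr 0) := fun x => h (.inl x) (.inr 0)
    have g1 : col (.inr 1) = col (.inr 0) := by
      cases om
      · simp only [Bool.false_eq_true, if_false] at h5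
        rw [← h5.1, g0]
      · simp only [if_true] at h5
        rw [h5.2, g0]
    have g2 : col (.inr 2) = col (.inr 0) := by
      cases ob
      · simp only [Bool.false_eq_true, if_false] at h6
        rw [h6.2, g0, A_self]
      · simp only [if_true] at h6
        rw [h6.2, g0, g1, A_self]
    have g3 : ∀ x, col x = col (.inr 0) := by
      intro x
      rcases x with x | i
      · exact g0 x
      · fin_cases i
        · rfl
        · exact g1
        · exact g2
    rw [g3 x, g3 y]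

theorem tr_r3 (ot om ob s1 s2 s3 : Bool) (hs : s1 = ((om == ob) == s2))
    (t0 t2 m0 m2 b0 b2 : P) (A' : List (P × P)) (C : List (Crossing P)) :
    TrT (⟨A'.map (Prod.map .inl .inl),
          tri ot om ob s1 s2 s3 (pts t0 t2 0) (pts m0 m2 1) (pts b0 b2 2) ++
            C.map (Crossing.map .inl)⟩ : Diagram (P ⊕ Fin 3))
      (⟨A'.map (Prod.map .inl .inl),
          tri (!ot) (!om) (!ob) s1 s2 s3 (pts t0 t2 0) (pts m0 m2 1) (pts b0 b2 2) ++
            C.map (Crossing.map .inl)⟩ : Diagram (P ⊕ Fin 3)) := by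
  intro R _ t col hc
  obtain ⟨h1, h2⟩ := isAlx_tri t ot om ob s1 s2 s3 hs t0 t2 m0 m2 b0 b2 A' C col hc
  exact ⟨_, h1, h2⟩

theorem tr_move {X Y : VD} (h : Move X Y) : TrT X.D Y.D ∧ TrT Y.D X.D := by
  cases h with
  | iso e D => exact tr_iso e D
  | perm h1 h2 =>
    exact ⟨tr_same fun R _ t col hc => isAlx_perm t h1 h2 col hc,
      tr_same fun R _ t col hc => isAlx_perm t h1.symm h2.symm col hc⟩
  | turn A x C =>
    constructor
    · refine tr_same fun R _ t col hc => ?_
      rw [isAlx_cons_cr] at hc ⊢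
      exact ⟨(CrT_turn _ _ _).2 hc.1, hc.2⟩
    · refine tr_same fun R _ t col hc => ?_
      rw [isAlx_cons_cr] at hc ⊢
      exact ⟨(CrT_turn _ _ _).1 hc.1, hc.2⟩
  | contract p A C => exact tr_contract p A C
  | r1 s p q A C => exact tr_r1 s p q A C _ (Or.inl rfl)
  | r1' s p q A C => exact tr_r1 s p q A C _ (Or.inr rfl)
  | r2 s p q r t A C => exact tr_r2 p q r t A C _ _ s (Or.inl ⟨rfl, rfl⟩)
  | r2' s p q r t A C => exact tr_r2 p q r t A C _ _ s (Or.inr ⟨rfl, rfl⟩)
  | r3 ot om ob s1 s2 s3 h1 h3 t0 t2 m0 m2 b0 b2 A C =>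
    refine ⟨tr_r3 ot om ob s1 s2 s3 h1 t0 t2 m0 m2 b0 b2 A C, ?_⟩
    have h1' : s1 = (((!om) == (!ob)) == s2) := by
      rw [h1]
      cases om <;> cases ob <;> rfl
    have := tr_r3 (!ot) (!om) (!ob) s1 s2 s3 h1' t0 t2 m0 m2 b0 b2 A C
    simp only [Bool.not_not] at this
    exact this

theorem v1 : StV1 := by
  intro X Y h
  induction h with
  | rel X Y h => exact tr_move h
  | refl X => exact ⟨TrT.refl _, TrT.refl _⟩
  | symm X Y _ ih => exact ⟨ih.2, ih.1⟩
  | trans X Y Z _ _ ih1 ih2 => exact ⟨ih1.1.trans ih2.1, ih2.2.trans ih1.2⟩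

end Pool.Agent.K4H9.AL
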