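import Pool.Agent.H891R2.Jones.Diagram

/-! The reverse of a diagram. -/

set_option autoImplicit false

namespace Pool.Agent.K4H9.AL

open Pool.Agent.H891R2.Jones

/-- the diagram with the opposite orientation -/
def reverse {P : Type} (D : Diagram P) : Diagram P :=
  ⟨D.arcs.map Prod.swap, D.crossings.map (fun x => ⟨x.a, x.b, x.c, x.d, !x.underFwd, !x.overFwd⟩)⟩

end Pool.Agent.K4H9.AL
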