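import Pool.Agent.K4H9.AL.Alg
import Pool.Agent.K4H9.AL.Inv
import Pool.Agent.K4H9.AL.Rev

/-! The theorem. -/

set_option autoImplicit false
set_option linter.unusedVariables false

namespace Pool.Agent.K4H9.AL

open Pool.Agent.H891R2.Jones Pool.Agent.K4H9.NJ

theorem isAlx_reverse {P R : Type} [CommRing R] (t : Rˣ) (D : Diagram P) (c : P → R)
    (hc : IsAlx t (reverse D) c) : IsAlx t⁻¹ D c := by
  have hti : (t : R) * (↑t⁻¹ : R) - 1 = 0 := by rw [Units.mul_inv, sub_self]
  obtain ⟨h1, h2⟩ := hc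
  constructor
  · intro x hx
    exact (h1 (Prod.swap x) (List.mem_map.2 ⟨x, hx, rfl⟩)).symm
  · intro x hx
    have := h2 _ (List.mem_map.2 ⟨x, hx, rfl⟩)
    unfold CrT at this ⊢
    dsimp only at this
    refine ⟨this.1, ?_⟩
    have h3 := this.2
    cases hov : x.overFwd
    · rw [hov] at h3
      simp only [Bool.not_false, if_true, Bool.false_eq_true, if_false] at h3 ⊢
      linear_combination (-(↑t⁻¹ : R)) * h3 + (c x.b - c x.a) * hti
    · rw [hov] at h3
      simp only [Bool.not_true, if_true, Bool.false_eq_true, if_false] at h3 ⊢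
      linear_combination (-(↑t⁻¹ : R)) * h3 + (c x.b - c x.c) * hti

theorem not_tr_rev (k k' : ℕ) (hk : 0 < k) (hk' : 0 < k') : ¬ TrT (X k) (reverse (X k')) := by
  intro h
  obtain ⟨t, ht⟩ := ex_t k hk
  have hk0 : (k : ℂ) ≠ 0 := by exact_mod_cast hk.ne'
  have hz0 : zz ≠ 0 := by
    intro h0
    have := zz_eq
    rw [h0] at this
    norm_num at this
  obtain ⟨c, hc, hs⟩ := X_ex t k (by rw [ht]; exact zz_eq)
  obtain ⟨c', hc', hs'⟩ := h ℂ t c hc
  obtain ⟨d, hd, hd'⟩ := X_back t⁻¹ k' c' (isAlx_reverse t _ c' hc')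
  have e : bb t⁻¹ k' * gg t⁻¹ = -((k' / k : ℝ) * zz) := by
    rw [← ht]
    unfold bb gg
    rw [inv_inv]
    push_cast
    field_simp
    ring
  have hd0 : d = 0 := by
    rw [e] at hd
    rcases mul_eq_zero.1 hd with h5 | h5
    · exfalso
      set r : ℝ := k' / k with hr
      have hr0 : 0 < r := by rw [hr]; positivity
      have h6 : ((1 : ℂ) + r) * ((1 - r) + r * zz) = 0 := by
        linear_combination h5 - (r : ℂ) ^ 2 * zz_eq
      have h7 : ((1 : ℂ) + r) ≠ 0 := by
        intro h8
        have h9 := congrArg Complex.re h8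
        have h10 : 1 + r = 0 := by simpa using h9
        linarith
      have h8 := (mul_eq_zero.1 h6).resolve_left h7
      have h9 := congrArg Complex.im h8
      have hz3 : (0 : ℝ) < Real.sqrt 3 := Real.sqrt_pos.2 (by norm_num)
      have h10 : r * (Real.sqrt 3 / 2) = 0 := by
        simpa [zz] using h9
      have h11 : 0 < r * (Real.sqrt 3 / 2) := by positivity
      exact h11.ne' h10
    · exact h5
  have h11 := hs (hs' (hd' hd0))
  have h12 : bb t k * (bb t k * gg t) = 0 := by linear_combination h11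
  rw [ht] at h12
  rcases mul_eq_zero.1 h12 with h13 | h13
  · rw [h13, zero_mul] at ht
    exact hz0 ht.symm
  · exact hz0 h13

end Pool.Agent.K4H9.AL
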