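import Pool.Agent.K4H9.AL.Step

/-! The knots `X k`. -/

set_option autoImplicit false
set_option linter.unusedVariables false

namespace Pool.Agent.K4H9.AL

open Pool.Agent.H891R2.Jones Pool.Agent.K4H9.NJ

variable {m : ℕ}

/-! ### normalised bracket -/

/-- the two outsides have the same brackets for all fillings, and the same writhe -/
structure SameJ (O O' : Outer m) : Prop where
  z : ∀ (N : ℕ) (A : ℂ), A ≠ 0 → (N : ℂ) = -A ^ 2 - A⁻¹ ^ 2 →
    ∀ g : (Fin m → Fin N) → ((Fin m → Fin N) → ℂ), Zg A N O g = Zg A N O' g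
  w : owr O = owr O'
  u : pat O.up = pat O'.up

theorem SameJ.trans {O O' O'' : Outer m} (h1 : SameJ O O') (h2 : SameJ O' O'') : SameJ O O'' :=
  ⟨fun N A hA hN g => (h1.z N A hA hN g).trans (h2.z N A hA hN g), h1.w.trans h2.w, h1.u.trans h2.u⟩

theorem sameJ_ins (O : Outer m) (pos : Bool) (i k : ℕ) (h : i + 1 < m) : SameJ (ins O pos i k) O :=
  ⟨fun N A hA hN g => Zg_ins hA hN O pos i k h g, (owr_ins O pos i k h).1, (owr_ins O pos i k h).2⟩

theorem SameJ.pushN {O O' : Outer m} (hs : SameJ O O') (pos : Bool) (i : ℕ) (h : i + 1 < m) (n : ℕ) :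
    SameJ (pushN O pos i n) (pushN O' pos i n) := by
  refine ⟨fun N A hA hN g => ?_, ?_, ?_⟩
  · rw [Zg_pushN A O pos i h, Zg_pushN A O' pos i h, hs.z N A hA hN]
  · rw [(owr_pushN O pos i h n).1, (owr_pushN O' pos i h n).1, hs.w, hs.u]
  · rw [(owr_pushN O pos i h n).2, (owr_pushN O' pos i h n).2, hs.u]

theorem sameJ_cancel (O : Outer m) (i : ℕ) (h : i + 1 < m) (n : ℕ) :
    SameJ (NJ.pushN (NJ.pushN O true i (2 * n)) false i (2 * n)) O := by
  obtain ⟨a1, a2⟩ := owr_pushN O true i h (2 * n)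
  obtain ⟨b1, b2⟩ := owr_pushN (NJ.pushN O true i (2 * n)) false i h (2 * n)
  rw [if_pos (even_two_mul n)] at a2 b2
  refine ⟨fun N A hA hN g => ?_, ?_, ?_⟩
  · rw [Zg_pushN A _ _ i h, Zg_pushN A _ _ i h]
    have key : opS A m N true i ^ (2 * n) * opS A m N false i ^ (2 * n) = 1 := by
      rw [← (opS_comm A true false i).mul_pow]
      have := opS_inv (m := m) hA hN true i h
      rw [Bool.not_true] at this
      rw [this, one_pow]
    have := congrArg (fun F : Module.End ℂ ((Fin m → Fin N) → ((Fin m → Fin N) → ℂ)) => F g) key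
    simp only [Module.End.mul_apply, Module.End.one_apply] at this
    rw [this]
  · rw [b1, a1, a2]
    simp
  · rw [b2, a2]

theorem SameJ.fPoly {O O' : Outer m} (hs : SameJ O O') (hm : 0 < m) :
    O.close.fPoly = O'.close.fPoly := by
  have hw : O.close.writhe = O'.close.writhe := hs.w
  have hne : Nonempty O.P := ⟨O.lower ⟨0, hm⟩⟩
  have hne' : Nonempty O'.P := ⟨O'.lower ⟨0, hm⟩⟩
  have hb : O.close.bracket - O'.close.bracket = 0 := by
    have h1 : O.close.bracket - O'.close.bracket + 1 = 1 := by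
      refine eq_one_of_ev _ fun N hN => ?_
      rw [map_add, map_sub, map_one]
      have h2 := ev_bracket N hN O.close
      have h3 := ev_bracket N hN O'.close
      rw [Z_close, hs.z N (Ar N) (Ar_ne N hN) (Ar_d N hN), ← Z_close, ← h3] at h2
      have h4 : (N : ℂ) ≠ 0 := by
        have : N ≠ 0 := by omega
        exact_mod_cast this
      have h5 := mul_left_cancel₀ h4 h2
      rw [h5, sub_self, zero_add]
    linear_combination h1
  unfold Diagram.fPoly
  rw [hw, sub_eq_zero.1 hb]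

/-! ### numberings -/

/-- there is a numbering of the outer part with the numbers `0` at the box -/
def NZ (O : Outer m) : Prop :=
  ∃ l : O.P → ℤ, NumO O l ∧ (∀ j, l (O.upper j) = 0) ∧ ∀ j, l (O.lower j) = 0

theorem NZ.nst {O : Outer m} (hN : NZ O) (i : ℕ) (h : i + 1 < m)
    (hu : O.up (pr i h) = !(O.up (pl i h))) :
    NSt O (pl i h) (pr i h) (fun _ => 0) (fun _ => 0) 0 (O.up (pl i h)) := by
  obtain ⟨l, hl, hz, hy⟩ := hN
  exact ⟨l, hl, hz, fun j => by rw [hy]; split_ifs <;> rfl, rfl, hu⟩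

theorem nz_of_nst {O : Outer m} {p q : Fin m} {u : Bool}
    (h : NSt O p q (fun _ => 0) (fun _ => 0) 0 u) : NZ O := by
  obtain ⟨l, hl, hz, hy, -, -⟩ := h
  exact ⟨l, hl, hz, fun j => by rw [hy]; split_ifs <;> rfl⟩

theorem NZ.ins {O : Outer m} (hN : NZ O) (pos : Bool) (i k : ℕ) (h : i + 1 < m)
    (hu : O.up (pr i h) = !(O.up (pl i h))) : NZ (NJ.ins O pos i k) :=
  nz_of_nst (nst_ins O pos i k h _ _ _ _ (hN.nst i h hu))

theorem NZ.pushN {O : Outer m} (hN : NZ O) (pos : Bool) (i k : ℕ) (h : i + 1 < m)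
    (hu : O.up (pr i h) = !(O.up (pl i h))) : NZ (NJ.pushN O pos i (2 * k)) :=
  nz_of_nst (nst_pushN O pos i h _ _ _ _ (hN.nst i h hu) k)

theorem NZ.close {O : Outer m} (hN : NZ O) : NullHomologous O.close := by
  obtain ⟨l, hl, hz, hy⟩ := hN
  exact null_of_num _ l ((num_close O l).2 ⟨hl, fun j => by rw [hy, hz]⟩)

/-! ### knots -/

theorem knot_pushN (O : Outer m) (pos : Bool) (i n : ℕ) (h : i + 1 < m) (hO : IsKnot O.close) :
    IsKnot (NJ.pushN O pos i (2 * n)).close := by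
  refine ⟨pushN_closed O pos i n h hO.1, (conn_close _).2 ?_⟩
  refine conn_pushN O pos i h _ _ ?_
  rw [sw_pow, mul_one]
  exact (conn_close _).1 hO.2

/-! ### the knots `X k` -/

/-- the parts of the diagram `X k` -/
def O1 (k : ℕ) : Outer 3 := ins base true 0 k
def O2 (k : ℕ) : Outer 3 := pushN (O1 k) true 1 (2 * 2)
def O3 (k : ℕ) : Outer 3 := ins (O2 k) true 1 1
def O4 (k : ℕ) : Outer 3 := ins (O3 k) false 0 k
def O5 (k : ℕ) : Outer 3 := ins (O4 k) false 1 1
def O6 (k : ℕ) : Outer 3 := pushN (O5 k) false 1 (2 * 2)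

/-- the knot diagram `X k` with `8 k + 16` crossings -/
def X (k : ℕ) : Diagram (O6 k).P := (O6 k).close

theorem h0 : 0 + 1 < 3 := by norm_num
theorem h1 : 1 + 1 < 3 := by norm_num

theorem up1 (k : ℕ) : (O1 k).up = base.up := ins_up _ _ _ _ h0
theorem up2 (k : ℕ) : (O2 k).up = base.up := (pushN_up _ _ _ _ h1).trans (up1 k)
theorem up3 (k : ℕ) : (O3 k).up = base.up := (ins_up _ _ _ _ h1).trans (up2 k)
theorem up4 (k : ℕ) : (O4 k).up = base.up := (ins_up _ _ _ _ h0).trans (up3 k)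
theorem up5 (k : ℕ) : (O5 k).up = base.up := (ins_up _ _ _ _ h1).trans (up4 k)

theorem alt {O : Outer 3} (h : O.up = base.up) (i : ℕ) (hi : i + 1 < 3) :
    O.up (pr i hi) = !(O.up (pl i hi)) := by
  rw [h]
  have : i = 0 ∨ i = 1 := by omega
  rcases this with rfl | rfl <;> rfl

theorem base_knot : IsKnot base.close := ⟨base_closed, (conn_close _).2 base_conn⟩

theorem X_knot (k : ℕ) : IsKnot (X k) :=
  knot_pushN _ _ _ _ h1 (knot_ins _ _ _ _ h1 (knot_ins _ _ _ _ h0 (knot_ins _ _ _ _ h1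
    (knot_pushN _ _ _ _ h1 (knot_ins _ _ _ _ h0 base_knot)))))

theorem base_nz : NZ base :=
  ⟨fun _ => 0, ⟨fun _ hx => absurd hx List.not_mem_nil, fun _ hx => absurd hx List.not_mem_nil⟩,
    fun _ => rfl, fun _ => rfl⟩

theorem X_num (k : ℕ) : NullHomologous (X k) := by
  have a1 : NZ (O1 k) := base_nz.ins true 0 k h0 (alt rfl 0 h0)
  have a2 : NZ (O2 k) := a1.pushN true 1 2 h1 (alt (up1 k) 1 h1)
  have a3 : NZ (O3 k) := a2.ins true 1 1 h1 (alt (up2 k) 1 h1)
  have a4 : NZ (O4 k) := a3.ins false 0 k h0 (alt (up3 k) 0 h0)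
  have a5 : NZ (O5 k) := a4.ins false 1 1 h1 (alt (up4 k) 1 h1)
  have a6 : NZ (O6 k) := a5.pushN false 1 2 h1 (alt (up5 k) 1 h1)
  exact a6.close

theorem X_fPoly (k : ℕ) : (X k).fPoly = 1 := by
  have a2 : SameJ (O2 k) (pushN base true 1 (2 * 2)) :=
    (sameJ_ins base true 0 k h0).pushN true 1 h1 _
  have a5 : SameJ (O5 k) (pushN base true 1 (2 * 2)) :=
    (((sameJ_ins (O4 k) false 1 1 h1).trans (sameJ_ins (O3 k) false 0 k h0)).trans
      (sameJ_ins (O2 k) true 1 1 h1)).trans a2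
  have a6 : SameJ (O6 k) base := (a5.pushN false 1 h1 _).trans (sameJ_cancel base 1 h1 2)
  have := a6.fPoly (by norm_num)
  unfold X
  rw [this]
  exact kink_fPoly 0

end Pool.Agent.K4H9.AL
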