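import Pool.Agent.K4H9.AL.Def

/-! Alexander colourings of diagrams with inserted twists. -/

set_option autoImplicit false
set_option linter.unusedVariables false

namespace Pool.Agent.K4H9.AL

open Pool.Agent.H891R2.Jones Pool.Agent.K4H9.NJ

variable {m : ℕ} {R : Type} [CommRing R]

/-- colouring of the outer part -/
def ColT (t : Rˣ) (O : Outer m) (c : O.P → R) : Prop :=
  (∀ x ∈ O.arcs, c x.1 = c x.2) ∧ ∀ x ∈ O.crossings, CrT t c x

theorem colT_close (t : Rˣ) (O : Outer m) (c : O.P → R) :
    IsAlx t O.close c ↔ ColT t O c ∧ ∀ j, c (O.lower j) = c (O.upper j) := by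
  unfold IsAlx ColT
  rw [close_arcs]
  constructor
  · rintro ⟨⟨h1, h2⟩, h3⟩
    exact ⟨⟨h1, h3⟩, h2⟩
  · rintro ⟨⟨h1, h3⟩, h2⟩
    exact ⟨⟨h1, h2⟩, h3⟩

/-- the colours below one crossing -/
def stepR (t : Rˣ) (pos : Bool) (p q : Fin m) (up : Fin m → Bool) (y : Fin m → R) : Fin m → R :=
  fun j => if j = p then
      (if pos = true then
        (if up p = true then (↑t⁻¹ : R) * y q + (1 - (↑t⁻¹ : R)) * y p else t * y q + (1 - t) * y p)
        else y q)
    else if j = q then
      (if pos = true then y p else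
        (if up q = true then t * y p + (1 - t) * y q else (↑t⁻¹ : R) * y p + (1 - (↑t⁻¹ : R)) * y q))
    else y j

/-- two strands are moved together -/
def adR (p q : Fin m) (e : R) (y : Fin m → R) : Fin m → R :=
  fun j => if j = p ∨ j = q then y j + e * (y q - y p) else y j

theorem adR_adR (p q : Fin m) (e e' : R) (y : Fin m → R) :
    adR p q e (adR p q e' y) = adR p q (e + e') y := by
  funext j
  unfold adR
  simp only [true_or, or_true, if_true]
  split_ifs
  · ring
  · rfl

theorem adR_zero (p q : Fin m) (y : Fin m → R) : adR p q 0 y = y := by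
  funext j
  unfold adR
  split_ifs <;> simp

theorem crT_new (t : Rˣ) (O : Outer m) (p q : Fin m) (hpq : p ≠ q) (pos : Bool) (c : O.P → R)
    (y : Fin m → R) :
    CrT t (Sum.elim c y) (O.newCrossing p q pos) ↔
      y p = stepR t pos p q O.up (fun j => c (O.lower j)) p ∧
        y q = stepR t pos p q O.up (fun j => c (O.lower j)) q := by
  have hti : (t : R) * (↑t⁻¹ : R) - 1 = 0 := by rw [Units.mul_inv, sub_self]
  cases pos
  · cases hu : O.up q
    · simp only [CrT, Outer.newCrossing, Bool.false_eq_true, if_false, Sum.elim_inl, Sum.elim_inr, stepR,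
        hu, if_true, if_neg hpq.symm]
      constructor
      · rintro ⟨h1, h⟩
        exact ⟨h1.symm, by
          linear_combination (-(↑t⁻¹ : R)) * h + (c (O.lower q) - y q) * hti⟩
      · rintro ⟨h1, h2⟩
        exact ⟨h1.symm, by
          linear_combination (-(t : R)) * h2 + (c (O.lower q) - c (O.lower p)) * hti⟩
    · simp only [CrT, Outer.newCrossing, Bool.false_eq_true, if_false, Sum.elim_inl, Sum.elim_inr, stepR,
        hu, if_true, if_neg hpq.symm]
      constructor
      · rintro ⟨h1, h⟩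
        exact ⟨h1.symm, h⟩
      · rintro ⟨h1, h2⟩
        exact ⟨h1.symm, h2⟩
  · cases hu : O.up p
    · simp only [CrT, Outer.newCrossing, Bool.false_eq_true, if_false, Sum.elim_inl, Sum.elim_inr, stepR,
        hu, if_true, if_neg hpq.symm, Bool.not_false]
      constructor
      · rintro ⟨h1, h⟩
        exact ⟨by rw [h, h1], h1⟩
      · rintro ⟨h1, h2⟩
        exact ⟨h2, by rw [h1, h2]⟩
    · simp only [CrT, Outer.newCrossing, Bool.false_eq_true, if_false, Sum.elim_inl, Sum.elim_inr, stepR,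
        hu, if_true, if_neg hpq.symm, Bool.not_true]
      constructor
      · rintro ⟨h1, h⟩
        exact ⟨by
          linear_combination (-(↑t⁻¹ : R)) * h + (y q - y p) * hti + (1 - (↑t⁻¹ : R)) * h1, h1⟩
      · rintro ⟨h2, h1⟩
        exact ⟨h1, by
          linear_combination (-(t : R)) * h2 + (c (O.lower p) - c (O.lower q)) * hti - (1 - (t : R)) * h1⟩

theorem colT_pushD (t : Rˣ) (O : Outer m) (pos : Bool) (i : ℕ) (h : i + 1 < m) (c : O.P → R)
    (y : Fin m → R) :
    ColT t (pushD O pos i h) (Sum.elim c y : O.P ⊕ Fin m → R) ↔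
      ColT t O c ∧ y = stepR t pos (pl i h) (pr i h) O.up (fun j => c (O.lower j)) := by
  have h1 : ColT t (pushD O pos i h) (Sum.elim c y : O.P ⊕ Fin m → R) ↔
      ((∀ x ∈ O.arcs, c x.1 = c x.2) ∧
        ∀ j, j ≠ pl i h → j ≠ pr i h → c (O.lower j) = y j) ∧
      ((∀ x ∈ O.crossings, CrT t c x) ∧
        CrT t (Sum.elim c y) (O.newCrossing (pl i h) (pr i h) pos)) :=
    and_congr (pushD_arcs O pos i h _) (pushD_crossings O pos i h (fun x => CrT t _ x))
  rw [h1, crT_new t O _ _ (pl_ne_pr i h)]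
  constructor
  · rintro ⟨⟨h2, h3⟩, h4, h5, h6⟩
    refine ⟨⟨h2, h4⟩, ?_⟩
    funext j
    by_cases hj : j = pl i h
    · rw [hj]; exact h5
    · by_cases hj' : j = pr i h
      · rw [hj']; exact h6
      · rw [← h3 j hj hj']
        unfold stepR
        rw [if_neg hj, if_neg hj']
  · rintro ⟨⟨h2, h3⟩, rfl⟩
    refine ⟨⟨h2, fun j hj hj' => ?_⟩, h3, rfl, rfl⟩
    unfold stepR
    rw [if_neg hj, if_neg hj']

/-- existence of colourings -/
def ExT (t : Rˣ) (O : Outer m) (z y : Fin m → R) : Prop :=
  ∃ c : O.P → R, ColT t O c ∧ (∀ j, c (O.upper j) = z j) ∧ (∀ j, c (O.lower j) = y j)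

/-- colourings of `O'` are extended colourings of `O` -/
structure Tw (t : Rˣ) (O O' : Outer m) (L : (Fin m → R) → (Fin m → R)) : Prop where
  ex : ∀ z y, ExT t O z y → ExT t O' z (L y)
  back : ∀ c' : O'.P → R, ColT t O' c' → ∃ c : O.P → R, ColT t O c ∧
    (∀ j, c' (O'.upper j) = c (O.upper j)) ∧ (∀ j, c' (O'.lower j) = L (fun j => c (O.lower j)) j) ∧
    ∀ s, (∀ x, c x = s) → ∀ x, c' x = s

theorem Tw.trans {t : Rˣ} {O O' O'' : Outer m} {L L' : (Fin m → R) → (Fin m → R)}
    (h1 : Tw t O O' L) (h2 : Tw t O' O'' L') : Tw t O O'' (fun y => L' (L y)) := by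
  refine ⟨fun z y h => h2.ex _ _ (h1.ex _ _ h), fun c'' hc'' => ?_⟩
  obtain ⟨c', hc', hu', hl', hs'⟩ := h2.back c'' hc''
  obtain ⟨c, hc, hu, hl, hs⟩ := h1.back c' hc'
  refine ⟨c, hc, fun j => by rw [hu', hu], fun j => ?_, fun s h => hs' s (hs s h)⟩
  rw [hl']
  have : (fun j => c' (O'.lower j)) = L (fun j => c (O.lower j)) := funext hl
  rw [this]

theorem Tw.congr {t : Rˣ} {O O' : Outer m} {L L' : (Fin m → R) → (Fin m → R)}
    (h1 : Tw t O O' L) (h2 : ∀ y, L y = L' y) : Tw t O O' L' := by
  have : L = L' := funext h2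
  rw [← this]
  exact h1

theorem Tw.refl (t : Rˣ) (O : Outer m) : Tw t O O (fun y => y) :=
  ⟨fun _ _ h => h, fun c hc => ⟨c, hc, fun _ => rfl, fun _ => rfl, fun _ h => h⟩⟩

theorem tw_push (t : Rˣ) (O : Outer m) (pos : Bool) (i : ℕ) (h : i + 1 < m) :
    Tw t O (O.push pos i) (stepR t pos (pl i h) (pr i h) O.up) := by
  rw [push_eq O pos i h]
  constructor
  · rintro z y ⟨c, hc, hz, hy⟩
    have hy' : (fun j => c (O.lower j)) = y := funext hy
    refine ⟨(Sum.elim c (stepR t pos (pl i h) (pr i h) O.up (fun j => c (O.lower j))) :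
      O.P ⊕ Fin m → R), (colT_pushD t O pos i h c _).2 ⟨hc, rfl⟩, hz, fun j => ?_⟩
    rw [← hy']
    rfl
  · intro c' hc'
    have e : c' = (Sum.elim (fun p => c' (.inl p)) (fun j => c' (.inr j)) : O.P ⊕ Fin m → R) := by
      funext x
      rcases x with x | x <;> rfl
    rw [e, colT_pushD] at hc'
    refine ⟨fun p => c' (.inl p), hc'.1, fun j => rfl, fun j => congrFun hc'.2 j, fun s hs x => ?_⟩
    rcases x with x | j
    · exact hs x
    · have := congrFun hc'.2 j
      rw [this]
      unfold stepR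
      simp only [hs]
      split_ifs <;> ring

theorem tw_virt (t : Rˣ) (O : Outer m) (i : ℕ) (h : i + 1 < m) :
    Tw t O (virt O i) (swC (pl i h) (pr i h)) := by
  rw [virt_eq O i h]
  constructor
  · rintro z y ⟨c, hc, hz, hy⟩
    exact ⟨c, hc, hz, fun j => hy _⟩
  · intro c' hc'
    exact ⟨c', hc', fun j => rfl, fun j => rfl, fun s hs => hs⟩

/-- the sign -/
def sgR (pos : Bool) : R := if pos then 1 else -1

/-- `t⁻¹` or `t` -/
def sT (t : Rˣ) (u : Bool) : R := if u then (↑t⁻¹ : R) else t

theorem step2 (t : Rˣ) (pos : Bool) (p q : Fin m) (hpq : p ≠ q) (up : Fin m → Bool)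
    (hu : up q = !(up p)) (y : Fin m → R) :
    stepR t pos p q (up ∘ Equiv.swap p q) (stepR t pos p q up y) =
      adR p q (sgR pos * (sT t (up p) - 1)) y := by
  have hti : (t : R) * (↑t⁻¹ : R) - 1 = 0 := by rw [Units.mul_inv, sub_self]
  funext j
  by_cases hj : j = p
  · subst hj
    cases pos <;> cases hp : up j <;> rw [hp] at hu <;>
      simp [stepR, adR, sgR, sT, hp, hu, hpq.symm, hpq] <;>
      first
      | linear_combination (0 : R) * hti
      | linear_combination (y q - y j) * hti
      | linear_combination (y j - y q) * hti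
  · by_cases hj' : j = q
    · subst hj'
      cases pos <;> cases hp : up p <;> rw [hp] at hu <;>
        simp [stepR, adR, sgR, sT, hp, hu, hpq.symm, hpq] <;>
        first
        | linear_combination (0 : R) * hti
        | linear_combination (y j - y p) * hti
    · simp [stepR, adR, hj, hj']

theorem push_up (O : Outer m) (pos : Bool) (i : ℕ) (h : i + 1 < m) :
    (O.push pos i).up = O.up ∘ Equiv.swap (pl i h) (pr i h) := by
  rw [push_eq O pos i h]
  rfl

theorem virt_up (O : Outer m) (i : ℕ) (h : i + 1 < m) :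
    (virt O i).up = O.up ∘ Equiv.swap (pl i h) (pr i h) := by
  rw [virt_eq O i h]
  rfl

theorem tw_push2 (t : Rˣ) (O : Outer m) (pos : Bool) (i : ℕ) (h : i + 1 < m)
    (hu : O.up (pr i h) = !(O.up (pl i h))) :
    Tw t O ((O.push pos i).push pos i)
      (adR (pl i h) (pr i h) (sgR pos * (sT t (O.up (pl i h)) - 1))) := by
  have h1 := (tw_push t O pos i h).trans (tw_push t (O.push pos i) pos i h)
  rw [push_up O pos i h] at h1
  exact h1.congr fun y => step2 t pos _ _ (pl_ne_pr i h) O.up hu y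

theorem tw_pushN (t : Rˣ) (O : Outer m) (pos : Bool) (i : ℕ) (h : i + 1 < m)
    (hu : O.up (pr i h) = !(O.up (pl i h))) : ∀ n : ℕ,
    Tw t O (pushN O pos i (2 * n)) (adR (pl i h) (pr i h) (n * (sgR pos * (sT t (O.up (pl i h)) - 1))))
  | 0 => by
    refine (Tw.refl t O).congr fun y => ?_
    rw [Nat.cast_zero, zero_mul, adR_zero]
  | n + 1 => by
    have hup := pushN_up O pos i n h
    have h1 := tw_push2 t (pushN O pos i (2 * n)) pos i h (by rw [hup]; exact hu)
    rw [hup] at h1
    refine ((tw_pushN t O pos i h hu n).trans h1).congr fun y => ?_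
    rw [adR_adR]
    congr 1
    push_cast
    ring

theorem sT_not (t : Rˣ) (u : Bool) : (sT t (!u) : R) + sT t u = t + (↑t⁻¹ : R) := by
  cases u <;> simp [sT, add_comm]

theorem sw_adR_sw (p q : Fin m) (hpq : p ≠ q) (e : R) (y : Fin m → R) :
    swC p q (adR p q e (swC p q y)) = adR p q (-e) y := by
  funext j
  unfold swC adR
  simp only [Equiv.swap_apply_left, Equiv.swap_apply_right, Equiv.swap_apply_self]
  by_cases h1 : j = p
  · subst h1
    simp only [Equiv.swap_apply_left, or_true, if_true, true_or]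
    ring
  · by_cases h2 : j = q
    · subst h2
      simp only [Equiv.swap_apply_right, or_true, if_true, true_or]
      ring
    · rw [Equiv.swap_apply_of_ne_of_ne h1 h2]
      simp [h1, h2]

theorem sgR_not (pos : Bool) : (sgR (!pos) : R) = -sgR pos := by
  cases pos <;> simp [sgR]

theorem tw_ins (t : Rˣ) (O : Outer m) (pos : Bool) (i k : ℕ) (h : i + 1 < m)
    (hu : O.up (pr i h) = !(O.up (pl i h))) :
    Tw t O (ins O pos i k)
      (adR (pl i h) (pr i h) (k * (sgR pos * (2 - t - (↑t⁻¹ : R))))) := by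
  have u1 : (virt O i).up (pl i h) = !(O.up (pl i h)) := by
    rw [virt_up O i h, Function.comp_apply, Equiv.swap_apply_left, hu]
  have u2 : (virt O i).up (pr i h) = !((virt O i).up (pl i h)) := by
    rw [u1, virt_up O i h, Function.comp_apply, Equiv.swap_apply_right, Bool.not_not]
  have u3 := pushN_up (virt O i) pos i k h
  have v1 : (virt (pushN (virt O i) pos i (2 * k)) i).up (pl i h) = O.up (pl i h) := by
    rw [virt_up _ i h, Function.comp_apply, Equiv.swap_apply_left, u3, u2, u1, Bool.not_not]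
  have v2 : (virt (pushN (virt O i) pos i (2 * k)) i).up (pr i h) =
      !((virt (pushN (virt O i) pos i (2 * k)) i).up (pl i h)) := by
    rw [v1, virt_up _ i h, Function.comp_apply, Equiv.swap_apply_right, u3, u1]
  have h1 := (((tw_virt t O i h).trans (tw_pushN t (virt O i) pos i h u2 k)).trans
    (tw_virt t _ i h)).trans (tw_pushN t _ (!pos) i h v2 k)
  refine h1.congr fun y => ?_
  rw [sw_adR_sw _ _ (pl_ne_pr i h), adR_adR]
  congr 1
  rw [u1, v1, sgR_not]
  have := sT_not (R := R) t (O.up (pl i h))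
  linear_combination (-(k : R)) * sgR pos * this

end Pool.Agent.K4H9.AL
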